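import Mathlib
import Pool.Agent.H692.KS.Model

/-!
# Two rounds: the abstract counting argument
-/

set_option autoImplicit false
set_option linter.unusedSectionVars false

namespace Pool.Agent.H692.RT

open Finset Filter Topology
open Pool.Agent.H692.KS

variable {ι : Type} [Fintype ι]

/-- all forms which are tested somewhere in the tree -/
def forms : KS.LT ι → Set (ι → ℝ)
  | .leaf _ => ∅
  | .round _ L _ next => Set.range L ∪ ⋃ a, forms (next a)

theorem forms_finite (R : KS.LT ι) : (forms R).Finite := by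
  induction R with
  | leaf b => exact Set.finite_empty
  | round m L σ next ih => exact (Set.finite_range L).union (Set.finite_iUnion ih)

theorem gen_of (R : KS.LT ι) {u : ι → ℝ} (h : ∀ L ∈ forms R, L ≠ 0 → dot L u ≠ 0) : R.Gen u := by
  induction R with
  | leaf b => trivial
  | round m L σ next ih =>
    refine ⟨fun i hi => h _ (Or.inl ⟨i, rfl⟩) hi, ih _ fun L' hL' h0 => h L' (Or.inr ?_) h0⟩
    exact Set.mem_iUnion.2 ⟨_, hL'⟩

/-- the forms which are tested in the first round -/
def nowForms : KS.LT ι → Set (ι → ℝ)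
  | .leaf _ => ∅
  | .round _ L _ _ => Set.range L

theorem card_le_tests {Φ : Type} {F : Φ → ι → ℝ}
    (hF : ∀ f f' : Φ, ∀ a : ℝ, F f = a • F f' → f = f') (R : KS.LT ι) (w : ι → ℝ) (S : Finset Φ)
    (hS : ∀ f ∈ S, ∃ L ∈ nowForms R, L ≠ 0 ∧ ∃ a : ℝ, L = a • F f) : #S ≤ R.tests w := by
  cases R with
  | leaf b =>
    rcases S.eq_empty_or_nonempty with h | ⟨f, hf⟩
    · simp [h]
    · obtain ⟨L, hL, -⟩ := hS f hf
      exact absurd hL (Set.notMem_empty _)
  | round m L σ next =>
    have h1 : ∀ f ∈ S, ∃ i : Fin m, L i ≠ 0 ∧ ∃ a : ℝ, L i = a • F f := by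
      intro f hf
      obtain ⟨L', ⟨i, rfl⟩, h2⟩ := hS f hf
      exact ⟨i, h2⟩
    have h2 : #S ≤ m := by
      classical
      rcases S.eq_empty_or_nonempty with h | ⟨f₀, hf₀⟩
      · simp [h]
      obtain ⟨i₀, -⟩ := h1 f₀ hf₀
      have : Nonempty (Fin m) := ⟨i₀⟩
      choose! g hg0 a hga using h1
      have h3 : #S ≤ #(univ : Finset (Fin m)) := by
        refine card_le_card_of_injOn g (fun _ _ => mem_coe.2 (mem_univ _)) ?_
        intro f hf f' hf' hff
        have h2 := hga f hf
        have h3 := hga f' hf'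
        have hff' : g f = g f' := hff
        have ha : a f ≠ 0 := by
          intro h0
          rw [h0, zero_smul] at h2
          exact hg0 f hf h2
        rw [hff', h3] at h2
        have h4 : F f = ((a f)⁻¹ * a f') • F f' := by
          rw [mul_smul, h2, smul_smul, inv_mul_cancel₀ ha, one_smul]
        exact hF _ _ _ h4
      simpa using h3
    unfold KS.LT.tests
    omega

/-- The trees with at most two rounds distinguish only few of the pairs `y θ f`, `z θ f`. -/
theorem two_rounds {Φ Θ : Type} [Fintype Θ] {F : Φ → ι → ℝ}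
    (hF : ∀ f f' : Φ, ∀ a : ℝ, F f = a • F f' → f = f') (R : KS.LT ι) (Z : Finset (Θ × Φ))
    (u : Θ → ι → ℝ) (y z : Θ → Φ → ι → ℝ) {B : ℝ} (hB : 0 ≤ B)
    (h1 : ∀ p ∈ Z, ∀ L ∈ forms R, L ≠ 0 → (¬ ∃ a : ℝ, L = a • F p.2) →
      SignType.sign (dot L (y p.1 p.2)) = SignType.sign (dot L (z p.1 p.2)) ∧
        dot L (z p.1 p.2) ≠ 0)
    (h2 : ∀ p ∈ Z, R.rounds (y p.1 p.2) ≤ 2)
    (h3 : ∀ L ∈ forms R, L ≠ 0 → ∀ Z' ⊆ Z, (∀ p ∈ Z',
      SignType.sign (dot L (y p.1 p.2)) ≠ SignType.sign (dot L (u p.1)) ∨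
        ∃ a : ℝ, L = a • F p.2) → (#Z' : ℝ) ≤ B)
    (θ₀ : Θ) {Z₁ : Finset (Θ × Φ)} (hZ₁ : Z₁ ⊆ Z)
    (hd : ∀ p ∈ Z₁, ¬ (R.Gen (z p.1 p.2) ∧ R.run (y p.1 p.2) = R.run (z p.1 p.2))) :
    (#Z₁ : ℝ) ≤ B * R.tests (u θ₀) + ∑ θ, (R.tests (u θ) : ℝ) := by
  classical
  cases R with
  | leaf b =>
    rcases Z₁.eq_empty_or_nonempty with h | ⟨p, hp⟩
    · rw [h]
      simp only [card_empty, Nat.cast_zero]
      positivity
    · exact absurd ⟨trivial, rfl⟩ (hd p hp)
  | round m L σ next =>
    -- the two kinds of pairs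
    let A : Fin m → Finset (Θ × Φ) := fun i => Z₁.filter fun p => L i ≠ 0 ∧
      (SignType.sign (dot (L i) (y p.1 p.2)) ≠ SignType.sign (dot (L i) (u p.1)) ∨
        ∃ a : ℝ, L i = a • F p.2)
    let C : Θ → Finset (Θ × Φ) := fun θ => Z₁.filter fun p => p.1 = θ ∧
      ∃ L' ∈ nowForms (next (ans L σ (u θ))), L' ≠ 0 ∧ ∃ a : ℝ, L' = a • F p.2
    have hcov : Z₁ ⊆ (univ.biUnion A) ∪ (univ.biUnion C) := by
      intro p hp
      rw [mem_union]
      by_contra hcon
      push Not at hcon
      obtain ⟨hA, hC⟩ := hcon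
      have hpZ := hZ₁ hp
      have hA' : ∀ i, L i ≠ 0 →
          SignType.sign (dot (L i) (y p.1 p.2)) = SignType.sign (dot (L i) (u p.1)) ∧
            ¬ ∃ a : ℝ, L i = a • F p.2 := by
        intro i hi
        by_contra hc
        apply hA
        rw [mem_biUnion]
        refine ⟨i, mem_univ _, ?_⟩
        rw [mem_filter]
        refine ⟨hp, hi, ?_⟩
        by_contra hc'
        push Not at hc'
        exact hc ⟨hc'.1, by push Not; exact hc'.2⟩
      have e1 : ans L σ (y p.1 p.2) = ans L σ (u p.1) := by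
        funext i
        unfold ans
        split_ifs with h0
        · rfl
        · exact (hA' i h0).1
      have e2 : ans L σ (z p.1 p.2) = ans L σ (u p.1) := by
        rw [← e1]
        funext i
        unfold ans
        split_ifs with h0
        · rfl
        · exact (h1 p hpZ (L i) (Or.inl ⟨i, rfl⟩) h0 (hA' i h0).2).1.symm
      have g1 : ∀ i, L i ≠ 0 → dot (L i) (z p.1 p.2) ≠ 0 := fun i h0 =>
        (h1 p hpZ (L i) (Or.inl ⟨i, rfl⟩) h0 (hA' i h0).2).2
      have h4 := hd p hp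
      unfold KS.LT.run KS.LT.Gen at h4
      rw [e1, e2] at h4
      have h4 : ¬ ((next (ans L σ (u p.1))).Gen (z p.1 p.2) ∧
          (next (ans L σ (u p.1))).run (y p.1 p.2) =
            (next (ans L σ (u p.1))).run (z p.1 p.2)) := fun h => h4 ⟨⟨g1, h.1⟩, h.2⟩
      have h5 := h2 p hpZ
      unfold KS.LT.rounds at h5
      rw [e1] at h5
      have hC' : ∀ L' ∈ nowForms (next (ans L σ (u p.1))), L' ≠ 0 →
          ¬ ∃ a : ℝ, L' = a • F p.2 := by
        intro L' hL' h0 ha
        apply hC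
        rw [mem_biUnion]
        refine ⟨p.1, mem_univ _, ?_⟩
        rw [mem_filter]
        exact ⟨hp, rfl, L', hL', h0, ha⟩
      have hsub : forms (next (ans L σ (u p.1))) ⊆ forms (.round m L σ next) := by
        intro L' hL'
        exact Or.inr (Set.mem_iUnion.2 ⟨_, hL'⟩)
      generalize next (ans L σ (u p.1)) = R' at h4 h5 hC' hsub
      cases R' with
      | leaf b => exact h4 ⟨trivial, rfl⟩
      | round m' L' σ' next' =>
        have e3 : ans L' σ' (y p.1 p.2) = ans L' σ' (z p.1 p.2) := by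
          funext i
          unfold ans
          split_ifs with h0
          · rfl
          · exact (h1 p hpZ (L' i) (hsub (Or.inl ⟨i, rfl⟩)) h0 (hC' _ ⟨i, rfl⟩ h0)).1
        have g2 : ∀ i, L' i ≠ 0 → dot (L' i) (z p.1 p.2) ≠ 0 := fun i h0 =>
          (h1 p hpZ (L' i) (hsub (Or.inl ⟨i, rfl⟩)) h0 (hC' _ ⟨i, rfl⟩ h0)).2
        unfold KS.LT.run KS.LT.Gen at h4
        unfold KS.LT.rounds at h5
        rw [e3] at h4 h5
        generalize next' (ans L' σ' (z p.1 p.2)) = R'' at h4 h5
        cases R'' with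
        | leaf b => exact h4 ⟨⟨g2, trivial⟩, rfl⟩
        | round m'' L'' σ'' next'' =>
          unfold KS.LT.rounds at h5
          omega
    have hAc : ∀ i, (#(A i) : ℝ) ≤ B := by
      intro i
      by_cases hi : L i = 0
      · have : A i = ∅ := by
          apply filter_false_of_mem
          intro p _ h
          exact h.1 hi
        rw [this]
        simpa using hB
      · refine h3 (L i) (Or.inl ⟨i, rfl⟩) hi (A i) ((filter_subset _ _).trans hZ₁) ?_
        intro p hp
        exact (mem_filter.1 hp).2.2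
    have hCc : ∀ θ, (#(C θ) : ℝ) ≤ ((next (ans L σ (u θ))).tests (u θ) : ℝ) := by
      intro θ
      have h6 : #(C θ) = #((C θ).image Prod.snd) := by
        rw [card_image_of_injOn]
        intro p hp q hq hpq
        have hp' := (mem_filter.1 (mem_coe.1 hp)).2.1
        have hq' := (mem_filter.1 (mem_coe.1 hq)).2.1
        exact Prod.ext (hp'.trans hq'.symm) hpq
      have h7 : #((C θ).image Prod.snd) ≤ (next (ans L σ (u θ))).tests (u θ) := by
        refine card_le_tests hF _ _ _ ?_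
        intro f hf
        rw [mem_image] at hf
        obtain ⟨p, hp, rfl⟩ := hf
        exact (mem_filter.1 hp).2.2
      rw [h6]
      exact_mod_cast h7
    have hcard : (#Z₁ : ℝ) ≤ ∑ i, (#(A i) : ℝ) + ∑ θ, (#(C θ) : ℝ) := by
      have h8 : #Z₁ ≤ ∑ i, #(A i) + ∑ θ, #(C θ) :=
        (card_le_card hcov).trans ((card_union_le _ _).trans
          (add_le_add card_biUnion_le card_biUnion_le))
      exact_mod_cast h8
    have hm : (m : ℝ) ≤ ((KS.LT.round m L σ next).tests (u θ₀) : ℝ) := by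
      unfold KS.LT.tests
      push_cast
      linarith [Nat.cast_nonneg (α := ℝ) ((next (ans L σ (u θ₀))).tests (u θ₀))]
    calc (#Z₁ : ℝ) ≤ ∑ i, (#(A i) : ℝ) + ∑ θ, (#(C θ) : ℝ) := hcard
      _ ≤ ∑ _i : Fin m, B + ∑ θ, ((next (ans L σ (u θ))).tests (u θ) : ℝ) :=
          add_le_add (sum_le_sum fun i _ => hAc i) (sum_le_sum fun θ _ => hCc θ)
      _ ≤ B * ((KS.LT.round m L σ next).tests (u θ₀) : ℝ) +
          ∑ θ, ((KS.LT.round m L σ next).tests (u θ) : ℝ) := by
          refine add_le_add ?_ (sum_le_sum fun θ _ => ?_)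
          · rw [sum_const, card_univ, Fintype.card_fin, nsmul_eq_mul, mul_comm]
            exact mul_le_mul_of_nonneg_left hm hB
          · conv_rhs => unfold KS.LT.tests
            push_cast
            linarith [Nat.cast_nonneg (α := ℝ) m]

/-! ### orders -/

section Order

variable [DecidableEq ι]

/-- the place of `e` in the order given by the permutation `π` -/
noncomputable def rk (π : Equiv.Perm ι) (e : ι) : ℕ := (Fintype.equivFin ι (π e) : ℕ)

theorem rk_inj (π : Equiv.Perm ι) : Function.Injective (rk π) := by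
  intro e e' h
  exact π.injective ((Fintype.equivFin ι).injective (Fin.ext h))

/-- `e` is the first element of `S` -/
def Fst (π : Equiv.Perm ι) (S : Finset ι) (e : ι) : Prop := e ∈ S ∧ ∀ e' ∈ S, rk π e ≤ rk π e'

theorem exists_fst (π : Equiv.Perm ι) {S : Finset ι} (hS : S.Nonempty) : ∃ e, Fst π S e := by
  obtain ⟨e, he, h⟩ := exists_min_image S (rk π) hS
  exact ⟨e, he, h⟩

theorem fst_unique {π : Equiv.Perm ι} {S : Finset ι} {e e' : ι} (h : Fst π S e) (h' : Fst π S e') :
    e = e' :=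
  rk_inj π (le_antisymm (h.2 _ h'.1) (h'.2 _ h.1))

open Classical in
theorem card_fst_eq {S : Finset ι} {e e' : ι} (he : e ∈ S) (he' : e' ∈ S) :
    #(univ.filter fun π : Equiv.Perm ι => Fst π S e) =
      #(univ.filter fun π : Equiv.Perm ι => Fst π S e') := by
  have key : ∀ {a b : ι}, a ∈ S → b ∈ S → ∀ π : Equiv.Perm ι, Fst π S a →
      Fst (Equiv.swap a b * π⁻¹)⁻¹ S b := by
    intro a b ha hb π h
    refine ⟨hb, fun c hc => ?_⟩
    have e1 : ∀ c, rk (Equiv.swap a b * π⁻¹)⁻¹ c = rk π (Equiv.swap a b c) := by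
      intro c
      unfold rk
      congr 2
    rw [e1, e1, Equiv.swap_apply_right]
    refine h.2 _ ?_
    rcases eq_or_ne c a with rfl | hca
    · rw [Equiv.swap_apply_left]; exact hb
    rcases eq_or_ne c b with rfl | hcb
    · rw [Equiv.swap_apply_right]; exact ha
    rw [Equiv.swap_apply_of_ne_of_ne hca hcb]
    exact hc
  apply card_bij' (fun π _ => (Equiv.swap e e' * π⁻¹)⁻¹) (fun π _ => (Equiv.swap e' e * π⁻¹)⁻¹)
  · intro π hπ
    rw [mem_filter] at hπ ⊢
    exact ⟨mem_univ _, key he he' π hπ.2⟩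
  · intro π hπ
    rw [mem_filter] at hπ ⊢
    exact ⟨mem_univ _, key he' he π hπ.2⟩
  · intro π _
    rw [Equiv.swap_comm e' e]
    ext x
    simp [mul_inv_rev, Equiv.swap_inv]
  · intro π _
    rw [Equiv.swap_comm e' e]
    ext x
    simp [mul_inv_rev, Equiv.swap_inv]

open Classical in
/-- an element of `S` is the first one with probability `1 / |S|` -/
theorem card_fst {S : Finset ι} {e : ι} (he : e ∈ S) :
    (#S : ℝ) * #(univ.filter fun π : Equiv.Perm ι => Fst π S e) =
      (Fintype.card (Equiv.Perm ι) : ℝ) := by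
  have h1 : (univ : Finset (Equiv.Perm ι)) =
      S.biUnion fun e' => univ.filter fun π : Equiv.Perm ι => Fst π S e' := by
    ext π
    simp only [mem_univ, mem_biUnion, mem_filter, true_and, true_iff]
    obtain ⟨e', h⟩ := exists_fst π ⟨e, he⟩
    exact ⟨e', h.1, h⟩
  have h2 : #(univ : Finset (Equiv.Perm ι)) =
      ∑ e' ∈ S, #(univ.filter fun π : Equiv.Perm ι => Fst π S e') := by
    conv_lhs => rw [h1]
    rw [card_biUnion]
    intro a _ b _ hab
    rw [Function.onFun, disjoint_left]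
    intro π ha hb
    exact hab (fst_unique (mem_filter.1 ha).2 (mem_filter.1 hb).2)
  have h3 : ∑ e' ∈ S, #(univ.filter fun π : Equiv.Perm ι => Fst π S e') =
      #S * #(univ.filter fun π : Equiv.Perm ι => Fst π S e) := by
    rw [sum_congr rfl fun e' he' => card_fst_eq he' he, sum_const, smul_eq_mul]
  rw [h3] at h2
  rw [card_univ] at h2
  exact_mod_cast h2.symm

/-- the vector with hierarchical entries -/
noncomputable def hv (δ : ℝ) (π : Equiv.Perm ι) : ι → ℝ := fun e => δ ^ rk π e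

theorem hv_pos {δ : ℝ} (hδ : 0 < δ) (π : Equiv.Perm ι) (e : ι) : 0 < hv δ π e := pow_pos hδ _

open Classical in
/-- the sign of a form at a vector with hierarchical entries -/
theorem sign_hv (L : ι → ℝ) : ∀ᶠ δ in 𝓝[>] (0 : ℝ), ∀ (π : Equiv.Perm ι) (e : ι),
    Fst π (univ.filter fun e => L e ≠ 0) e →
      SignType.sign (dot L (hv δ π)) = SignType.sign (L e) := by
  refine eventually_all.2 fun π => eventually_all.2 fun e => ?_
  by_cases hF : Fst π (univ.filter fun e => L e ≠ 0) e
  swap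
  · exact Eventually.of_forall fun δ h => absurd h hF
  have he : L e ≠ 0 := (mem_filter.1 hF.1).2
  set Sg : ℝ := ∑ e', |L e'| with hSg
  have hSg0 : 0 < Sg := by
    have h1 : |L e| ≤ Sg := single_le_sum (f := fun e' => |L e'|) (fun i _ => abs_nonneg _)
      (mem_univ e)
    exact lt_of_lt_of_le (abs_pos.2 he) h1
  have h1 : ∀ᶠ δ in 𝓝[>] (0 : ℝ), δ < min 1 (|L e| / (2 * Sg)) := by
    have : (0 : ℝ) < min 1 (|L e| / (2 * Sg)) := lt_min one_pos (by positivity)
    exact nhdsWithin_le_nhds (gt_mem_nhds this)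
  filter_upwards [h1, self_mem_nhdsWithin] with δ h2 hδ _
  have hδ0 : (0 : ℝ) < δ := hδ
  have hδ1 : δ < 1 := h2.trans_le (min_le_left _ _)
  have hδ2 : δ * (2 * Sg) < |L e| := by
    rw [← lt_div_iff₀ (by positivity)]
    exact h2.trans_le (min_le_right _ _)
  -- the main term
  have h3 : dot L (hv δ π) = δ ^ rk π e * L e + ∑ e' ∈ univ.erase e, L e' * δ ^ rk π e' := by
    unfold dot hv
    rw [← add_sum_erase univ _ (mem_univ e)]
    ring
  have h4 : |∑ e' ∈ univ.erase e, L e' * δ ^ rk π e'| ≤ δ ^ rk π e * (δ * Sg) := by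
    calc |∑ e' ∈ univ.erase e, L e' * δ ^ rk π e'|
        ≤ ∑ e' ∈ univ.erase e, |L e' * δ ^ rk π e'| := abs_sum_le_sum_abs _ _
      _ ≤ ∑ e' ∈ univ.erase e, δ ^ rk π e * δ * |L e'| := by
          refine sum_le_sum fun e' he' => ?_
          rw [abs_mul, abs_of_pos (pow_pos hδ0 _)]
          by_cases h0 : L e' = 0
          · rw [h0]; simp
          · have h5 : rk π e ≤ rk π e' := hF.2 e' (mem_filter.2 ⟨mem_univ _, h0⟩)
            have h6 : rk π e ≠ rk π e' := fun h => (mem_erase.1 he').1 (rk_inj π h).symm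
            have h7 : rk π e + 1 ≤ rk π e' := by omega
            have h8 : δ ^ rk π e' ≤ δ ^ (rk π e + 1) :=
              pow_le_pow_of_le_one hδ0.le hδ1.le h7
            rw [pow_succ] at h8
            calc |L e'| * δ ^ rk π e' ≤ |L e'| * (δ ^ rk π e * δ) :=
                  mul_le_mul_of_nonneg_left h8 (abs_nonneg _)
              _ = _ := by ring
      _ ≤ ∑ e', δ ^ rk π e * δ * |L e'| :=
          sum_le_sum_of_subset_of_nonneg (erase_subset _ _) fun _ _ _ => by positivity
      _ = δ ^ rk π e * (δ * Sg) := by rw [← mul_sum]; ring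
  have hp : 0 < δ ^ rk π e := pow_pos hδ0 _
  set X := ∑ e' ∈ univ.erase e, L e' * δ ^ rk π e' with hX
  have h9 : |X| < δ ^ rk π e * |L e| := by
    refine lt_of_le_of_lt h4 (mul_lt_mul_of_pos_left ?_ hp)
    have : 0 < δ * Sg := by positivity
    linarith
  rw [h3]
  rcases lt_or_gt_of_ne he with h | h
  · rw [abs_of_neg h, abs_lt] at h9
    rw [sign_neg h, sign_neg]
    nlinarith [h9.2]
  · rw [abs_of_pos h, abs_lt] at h9
    rw [sign_pos h, sign_pos]
    nlinarith [h9.1]

theorem eventually_sign (L p u : ι → ℝ) (h : dot L p ≠ 0) :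
    ∀ᶠ ε in 𝓝[>] (0 : ℝ), SignType.sign (dot L (p + ε • u)) = SignType.sign (dot L p) := by
  have hc := (dot_continuous L).continuousAt (x := p)
  rcases lt_or_gt_of_ne h with h | h
  · filter_upwards [(tendsto_line p u).eventually (hc.eventually (gt_mem_nhds h))] with ε hε
    rw [sign_neg hε, sign_neg h]
  · filter_upwards [(tendsto_line p u).eventually (hc.eventually (lt_mem_nhds h))] with ε hε
    rw [sign_pos hε, sign_pos h]

open Classical in
/-- a common choice of the parameters for finitely many forms -/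
theorem exists_base {Ω' : Type} [Finite Ω'] (q : Ω' → ι → ℝ) {F : Set (ι → ℝ)} (hF : F.Finite) :
    ∃ δ η : ℝ, 0 < δ ∧ 0 < η ∧ ∀ ω, ∀ π : Equiv.Perm ι, ∀ L ∈ F, L ≠ 0 →
      (dot L (q ω) ≠ 0 → SignType.sign (dot L (q ω + η • hv δ π)) = SignType.sign (dot L (q ω))) ∧
      (dot L (q ω) = 0 → ∀ e, Fst π (univ.filter fun e => L e ≠ 0) e →
        SignType.sign (dot L (q ω + η • hv δ π)) = SignType.sign (L e)) := by
  have h1 : ∀ᶠ δ in 𝓝[>] (0 : ℝ), ∀ L ∈ F, ∀ (π : Equiv.Perm ι) (e : ι),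
      Fst π (univ.filter fun e => L e ≠ 0) e →
        SignType.sign (dot L (hv δ π)) = SignType.sign (L e) :=
    (eventually_all_finite hF).2 fun L _ => sign_hv L
  obtain ⟨δ, h2, hδ⟩ := (h1.and self_mem_nhdsWithin).exists
  have hδ0 : (0 : ℝ) < δ := hδ
  have h3 : ∀ᶠ η in 𝓝[>] (0 : ℝ), ∀ ω, ∀ π : Equiv.Perm ι, ∀ L ∈ F, L ≠ 0 →
      (dot L (q ω) ≠ 0 → SignType.sign (dot L (q ω + η • hv δ π)) = SignType.sign (dot L (q ω))) ∧
      (dot L (q ω) = 0 → ∀ e, Fst π (univ.filter fun e => L e ≠ 0) e →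
        SignType.sign (dot L (q ω + η • hv δ π)) = SignType.sign (L e)) := by
    refine eventually_all.2 fun ω => eventually_all.2 fun π => (eventually_all_finite hF).2
      fun L hL => ?_
    by_cases h0 : dot L (q ω) = 0
    · filter_upwards [self_mem_nhdsWithin] with η hη _
      have hη0 : (0 : ℝ) < η := hη
      refine ⟨fun h => absurd h0 h, fun _ e he => ?_⟩
      rw [dot_add_smul, h0, zero_add, sign_mul, sign_pos hη0, one_mul]
      exact h2 L hL π e he
    · filter_upwards [eventually_sign L (q ω) (hv δ π) h0] with η hη _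
      exact ⟨fun _ => hη, fun h => absurd h h0⟩
  obtain ⟨η, h4, hη⟩ := (h3.and self_mem_nhdsWithin).exists
  exact ⟨δ, η, hδ0, hη, h4⟩

end Order

end Pool.Agent.H692.RT
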