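import Mathlib
import Pool.Agent.H692.RT.Abs
import Pool.Agent.H692.KS.Final

/-!
# Two rounds: linear forms with one variable of each part
-/

set_option autoImplicit false
set_option linter.unusedSectionVars false

namespace Pool.Agent.H692.RT

open Finset Filter Topology
open Pool.Agent.H692.KS

variable {K n : ℕ}

/-- the last variable of a tuple -/
def lv (s : Tup (K + 1) n) : Var (K + 1) n := (Fin.last K, s (Fin.last K))

theorem form_lv (c : Fin (K + 1) → ℝ) (s : Tup (K + 1) n) : form c s (lv s) = c (Fin.last K) := by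
  unfold form lv
  simp

/-- `L` minus the multiple of the form of `s` such that the coefficient of the last variable of `s`
vanishes -/
noncomputable def tl (c : Fin (K + 1) → ℝ) (s : Tup (K + 1) n) (L : Var (K + 1) n → ℝ) :
    Var (K + 1) n → ℝ := L - (L (lv s) / c (Fin.last K)) • form c s

theorem dot_sub_smul {ι : Type} [Fintype ι] (L M : ι → ℝ) (a : ℝ) (w : ι → ℝ) :
    dot (L - a • M) w = dot L w - a * dot M w := by
  unfold dot
  rw [mul_sum, ← sum_sub_distrib]
  exact sum_congr rfl fun e _ => by rw [Pi.sub_apply, Pi.smul_apply, smul_eq_mul]; ring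

theorem dot_tl (c : Fin (K + 1) → ℝ) (s : Tup (K + 1) n) (L : Var (K + 1) n → ℝ)
    (w : Var (K + 1) n → ℝ) :
    dot (tl c s L) w = dot L w - (L (lv s) / c (Fin.last K)) * val c w s := by
  unfold tl
  rw [dot_sub_smul, dot_form]

theorem tl_ne {c : Fin (K + 1) → ℝ} {s : Tup (K + 1) n} {L : Var (K + 1) n → ℝ}
    (h : ¬ ∃ a : ℝ, L = a • form c s) : tl c s L ≠ 0 := by
  intro h0
  unfold tl at h0
  exact h ⟨_, sub_eq_zero.1 h0⟩

/-- the yes-instance: the last variable of `s` is changed such that the form of `s` vanishes -/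
noncomputable def yes (c : Fin (K + 1) → ℝ) (u : Var (K + 1) n → ℝ) (s : Tup (K + 1) n) :
    Var (K + 1) n → ℝ := u + (-(val c u s / c (Fin.last K))) • Pi.single (lv s) 1

theorem dot_yes (c : Fin (K + 1) → ℝ) (u : Var (K + 1) n → ℝ) (s : Tup (K + 1) n)
    (L : Var (K + 1) n → ℝ) : dot L (yes c u s) = dot (tl c s L) u := by
  unfold yes
  rw [dot_add_smul, dot_single, dot_tl]
  ring

/-- the no-instance near it -/
noncomputable def noi (c : Fin (K + 1) → ℝ) (u : Var (K + 1) n → ℝ) (ε : ℝ)
    (s : Tup (K + 1) n) : Var (K + 1) n → ℝ := yes c u s + ε • Pi.single (lv s) 1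

theorem dot_noi (c : Fin (K + 1) → ℝ) (u : Var (K + 1) n → ℝ) (ε : ℝ) (s : Tup (K + 1) n)
    (L : Var (K + 1) n → ℝ) : dot L (noi c u ε s) = dot (tl c s L) u + ε * L (lv s) := by
  unfold noi
  rw [dot_add_smul, dot_single, dot_yes, mul_one]

theorem dot_noi_smul {c : Fin (K + 1) → ℝ} (hc : ∀ p, c p ≠ 0) (u : Var (K + 1) n → ℝ) (ε : ℝ)
    (s : Tup (K + 1) n) (a : ℝ) :
    dot (a • form c s) (noi c u ε s) = ε * (a * c (Fin.last K)) := by
  rw [dot_noi]
  have h : tl c s (a • form c s) = 0 := by
    unfold tl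
    rw [Pi.smul_apply, form_lv, smul_eq_mul, mul_div_assoc, div_self (hc _), mul_one, sub_self]
  rw [h]
  unfold dot
  simp [form_lv]

/-! ### probabilities -/

/-- a tuple is tight and another form vanishes with probability at most `1 / (K x ^ 2)` -/
theorem prob_two (hK : 1 ≤ K) {x : ℕ} {c : Fin (K + 1) → ℝ} (hc : ∀ p, c p ≠ 0)
    {s : Tup (K + 1) n} {L : Var (K + 1) n → ℝ} (h : ¬ ∃ a : ℝ, L = a • form c s) :
    (K * x ^ 2 : ℝ) * ∑ ω ∈ Om K n x, (if lab ω s = 0 ∧ dot L (qv c ω) = 0 then (1 : ℝ) else 0) ≤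
      (Om K n x).card := by
  classical
  set u : Var (K + 1) n := lv s with hu
  have htl := tl_ne h
  have htlu : tl c s L u = 0 := by
    unfold tl
    rw [Pi.sub_apply, Pi.smul_apply, hu, form_lv, smul_eq_mul, div_mul_cancel₀ _ (hc _), sub_self]
  obtain ⟨v, hv⟩ := exists_coeff htl
  have huv : u ≠ v := by
    rintro rfl
    exact hv htlu
  set F : (Var (K + 1) n → ℝ) → ℝ := fun ω =>
    if lab ω s = 0 ∧ dot L (qv c ω) = 0 then (1 : ℝ) else 0 with hF
  have h1 := resample (rng K n x) u F
  have h2 := resample (rng K n x) v fun ω => ∑ z ∈ rng K n x u, F (Function.update ω u z)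
  have hcard : ((rng K n x u).card : ℝ) = K * x := by
    rw [card_rng]
    simp [hu, lv]
  rw [← h1, hcard] at h2
  -- the value of `tl c s L` after changing one label
  have hup : ∀ (M ω : Var (K + 1) n → ℝ) (e : Var (K + 1) n) (z : ℝ),
      dot M (qv c (Function.update ω e z)) = dot M (qv c ω) + M e * ((z - ω e) / c e.1) := by
    intro M ω e z
    have : qv c (Function.update ω e z) = qv c ω + Pi.single e ((z - ω e) / c e.1) := by
      funext v
      unfold qv
      rw [Pi.add_apply]
      by_cases hv : v = e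
      · subst hv
        rw [Function.update_self, Pi.single_eq_same]
        ring
      · rw [Function.update_of_ne hv, Pi.single_eq_of_ne hv, add_zero]
    rw [this, dot_add, dot_single]
  have h3 : ∀ ω ∈ Fintype.piFinset (rng K n x), ∑ z ∈ rng K n x v, ∑ z' ∈ rng K n x u,
      F (Function.update (Function.update ω v z) u z') ≤ 1 := by
    intro ω _
    rw [← sum_product', hF, sum_boole]
    have h4 : #{q ∈ rng K n x v ×ˢ rng K n x u |
        lab (Function.update (Function.update ω v q.1) u q.2) s = 0 ∧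
        dot L (qv c (Function.update (Function.update ω v q.1) u q.2)) = 0} ≤ 1 := by
      rw [card_le_one]
      rintro ⟨z, y⟩ ha ⟨z', y'⟩ hb
      simp only [mem_filter, mem_product] at ha hb
      obtain ⟨-, ha1, ha2⟩ := ha
      obtain ⟨-, hb1, hb2⟩ := hb
      have e1 : ∀ z y : ℝ, lab (Function.update (Function.update ω v z) u y) s = 0 →
          dot L (qv c (Function.update (Function.update ω v z) u y)) = 0 →
          dot (tl c s L) (qv c ω) + tl c s L v * ((z - ω v) / c v.1) = 0 := by
        intro z y h5 h6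
        have h7 := dot_tl c s L (qv c (Function.update (Function.update ω v z) u y))
        rw [val_qv hc, h5, mul_zero, sub_zero, h6, hup, htlu, zero_mul, add_zero, hup] at h7
        exact h7
      have h5 := e1 z y ha1 ha2
      have h6 := e1 z' y' hb1 hb2
      have h7 : tl c s L v * ((z - ω v) / c v.1) = tl c s L v * ((z' - ω v) / c v.1) := by
        linarith
      have h8 := mul_left_cancel₀ hv h7
      rw [div_left_inj' (hc _)] at h8
      have hz : z = z' := by linarith
      subst hz
      have e0 : ∀ y : ℝ, lab (Function.update (Function.update ω v z) u y) s =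
          lab (Function.update ω v z) s - (Function.update ω v z) u + y := by
        intro y
        rw [hu]
        unfold lv
        rw [update_lab_self]
      rw [e0] at ha1 hb1
      have hy : y = y' := by linarith
      rw [hy]
    exact_mod_cast h4
  have h4 : ((rng K n x v).card : ℝ) * ((K * x : ℝ) * ∑ ω ∈ Fintype.piFinset (rng K n x), F ω) ≤
      (Fintype.piFinset (rng K n x)).card := by
    rw [h2]
    refine (sum_le_sum h3).trans ?_
    rw [sum_const, nsmul_eq_mul, mul_one]
  have h5 : (x : ℝ) ≤ (rng K n x v).card := by exact_mod_cast le_card_rng hK x v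
  have h6 : 0 ≤ ∑ ω ∈ Fintype.piFinset (rng K n x), F ω := by
    refine sum_nonneg fun ω _ => ?_
    rw [hF]
    beta_reduce
    split_ifs <;> norm_num
  unfold Om
  refine le_trans ?_ h4
  have h7 : (0 : ℝ) ≤ K * x * ∑ ω ∈ Fintype.piFinset (rng K n x), F ω := by positivity
  calc (K * x ^ 2 : ℝ) * ∑ ω ∈ Fintype.piFinset (rng K n x), F ω
      = x * (K * x * ∑ ω ∈ Fintype.piFinset (rng K n x), F ω) := by ring
    _ ≤ _ := mul_le_mul_of_nonneg_right h5 h7

/-- the variables of a tuple -/
def vs (s : Tup (K + 1) n) : Finset (Var (K + 1) n) := univ.image fun p => (p, s p)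

theorem card_vs (s : Tup (K + 1) n) : #(vs s) ≤ K + 1 := by
  refine card_image_le.trans ?_
  simp

theorem form_of_notMem (c : Fin (K + 1) → ℝ) {s : Tup (K + 1) n} {e : Var (K + 1) n}
    (h : e ∉ vs s) : form c s e = 0 := by
  unfold form
  rw [if_neg]
  intro h'
  apply h
  unfold vs
  rw [mem_image]
  exact ⟨e.1, mem_univ _, Prod.ext rfl h'⟩

open Classical in
/-- the support -/
noncomputable def sp (L : Var (K + 1) n → ℝ) : Finset (Var (K + 1) n) := univ.filter fun e => L e ≠ 0

theorem mem_sp {L : Var (K + 1) n → ℝ} {e : Var (K + 1) n} : e ∈ sp L ↔ L e ≠ 0 := by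
  unfold sp
  simp

open Classical in
/-- the probability that the first variable belongs to the tuple -/
theorem card_flip (L : Var (K + 1) n → ℝ) (s : Tup (K + 1) n) :
    (#(sp L) : ℝ) * #(univ.filter fun π : Equiv.Perm (Var (K + 1) n) =>
      ∃ e ∈ vs s, Fst π (sp L ∪ vs s) e) ≤
      (K + 1) * (Fintype.card (Equiv.Perm (Var (K + 1) n)) : ℝ) := by
  set N : ℝ := (Fintype.card (Equiv.Perm (Var (K + 1) n)) : ℝ) with hN
  have hN0 : 0 ≤ N := Nat.cast_nonneg _
  have h1 : #(univ.filter fun π : Equiv.Perm (Var (K + 1) n) =>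
      ∃ e ∈ vs s, Fst π (sp L ∪ vs s) e) ≤
      ∑ e ∈ vs s, #(univ.filter fun π : Equiv.Perm (Var (K + 1) n) => Fst π (sp L ∪ vs s) e) := by
    refine (card_le_card ?_).trans card_biUnion_le
    intro π hπ
    rw [mem_filter] at hπ
    obtain ⟨-, e, he, h⟩ := hπ
    rw [mem_biUnion]
    exact ⟨e, he, mem_filter.2 ⟨mem_univ _, h⟩⟩
  have h1' : (#(univ.filter fun π : Equiv.Perm (Var (K + 1) n) =>
      ∃ e ∈ vs s, Fst π (sp L ∪ vs s) e) : ℝ) ≤
      ∑ e ∈ vs s, (#(univ.filter fun π : Equiv.Perm (Var (K + 1) n) =>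
        Fst π (sp L ∪ vs s) e) : ℝ) := by exact_mod_cast h1
  have h2 : (#(sp L) : ℝ) ≤ #(sp L ∪ vs s) := by
    exact_mod_cast card_le_card subset_union_left
  calc (#(sp L) : ℝ) * _ ≤ #(sp L ∪ vs s) *
        ∑ e ∈ vs s, (#(univ.filter fun π : Equiv.Perm (Var (K + 1) n) =>
        Fst π (sp L ∪ vs s) e) : ℝ) :=
        mul_le_mul h2 h1' (Nat.cast_nonneg _) (Nat.cast_nonneg _)
    _ = ∑ e ∈ vs s, N := by
        rw [mul_sum]
        refine sum_congr rfl fun e he => ?_
        rw [card_fst (mem_union_right _ he)]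
    _ = #(vs s) * N := by rw [sum_const, nsmul_eq_mul]
    _ ≤ (K + 1) * N := by
        refine mul_le_mul_of_nonneg_right ?_ hN0
        exact_mod_cast card_vs s

/-- number of the tuples whose last variable belongs to the support -/
theorem card_lv (L : Var (K + 1) n → ℝ) :
    (#(univ.filter fun s : Tup (K + 1) n => lv s ∈ sp L) : ℝ) ≤ (n : ℝ) ^ K * #(sp L) := by
  classical
  have h1 : #(univ.filter fun s : Tup (K + 1) n => lv s ∈ sp L) ≤
      #((univ : Finset (Fin K → Fin n)) ×ˢ sp L) := by
    refine card_le_card_of_injOn (fun s => (fun p => s p.castSucc, lv s)) ?_ ?_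
    · intro s hs
      have hs' := (mem_filter.1 (mem_coe.1 hs)).2
      exact mem_coe.2 (mem_product.2 ⟨mem_univ _, hs'⟩)
    · intro s _ s' _ h
      simp only [Prod.mk.injEq] at h
      obtain ⟨h1, h2⟩ := h
      funext p
      refine Fin.lastCases ?_ (fun q => ?_) p
      · unfold lv at h2
        exact (Prod.mk.inj h2).2
      · exact congrFun h1 q
  have h2 : (#((univ : Finset (Fin K → Fin n)) ×ˢ sp L) : ℝ) = (n : ℝ) ^ K * #(sp L) := by
    rw [card_product, card_univ]
    simp only [Fintype.card_pi, Fintype.card_fin, prod_const, card_univ]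
    push_cast
    ring
  rw [← h2]
  exact_mod_cast h1

end Pool.Agent.H692.RT
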