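import Mathlib
import Pool.Agent.H692.RT.Sum

/-!
# Two rounds: counting
-/

set_option autoImplicit false
set_option linter.unusedSectionVars false

namespace Pool.Agent.H692.RT

open Finset Filter Topology
open Pool.Agent.H692.KS

variable {K n : ℕ}

/-- labels and orders -/
abbrev Th (K n x : ℕ) : Type := (Om K n x) × Equiv.Perm (Var (K + 1) n)

open Classical in
/-- the pairs of labels and orders, and tight tuples -/
noncomputable def ZZ (K n x : ℕ) : Finset (Th K n x × Tup (K + 1) n) :=
  univ.filter fun p => lab p.1.1.1 p.2 = 0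

theorem card_sub {x : ℕ} (P : (Var (K + 1) n → ℝ) → Prop) [DecidablePred P] :
    (#(univ.filter fun ω : Om K n x => P ω.1) : ℝ) =
      ∑ ω ∈ Om K n x, (if P ω then (1 : ℝ) else 0) := by
  rw [← sum_coe_sort (Om K n x) (fun ω => if P ω then (1 : ℝ) else 0), sum_boole]

theorem card_ZZ (hK : 1 ≤ K) {x : ℕ} (hx : 0 < x) :
    (K * x : ℝ) * #(ZZ K n x) =
      (n : ℝ) ^ (K + 1) * ((Om K n x).card * Fintype.card (Equiv.Perm (Var (K + 1) n)) : ℝ) := by
  classical
  have hK' : (0 : ℝ) < K := by exact_mod_cast hK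
  have hx' : (0 : ℝ) < x := by exact_mod_cast hx
  have h1 : #(ZZ K n x) = ∑ s : Tup (K + 1) n,
      #((univ.filter fun ω : Om K n x => lab ω.1 s = 0) ×ˢ
        (univ : Finset (Equiv.Perm (Var (K + 1) n)))) := by
    rw [← card_sigma]
    refine card_bij' (fun p _ => ⟨p.2, p.1⟩) (fun q _ => (q.2, q.1)) ?_ ?_ ?_ ?_
    · intro p hp
      unfold ZZ at hp
      rw [mem_filter] at hp
      simp [hp.2]
    · rintro ⟨s, ω, π⟩ hq
      unfold ZZ
      rw [mem_filter]
      simp only [mem_sigma, mem_univ, true_and, mem_product, mem_filter, and_true] at hq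
      exact ⟨mem_univ _, hq⟩
    · intro p _
      rfl
    · intro q _
      rfl
  rw [h1]
  push_cast
  rw [mul_sum]
  have h2 : ∀ s ∈ (univ : Finset (Tup (K + 1) n)), (K * x : ℝ) *
      (#((univ.filter fun ω : Om K n x => lab ω.1 s = 0) ×ˢ
        (univ : Finset (Equiv.Perm (Var (K + 1) n)))) : ℝ) =
      (Om K n x).card * Fintype.card (Equiv.Perm (Var (K + 1) n)) := by
    intro s _
    rw [card_product, Nat.cast_mul, card_sub (fun ω => lab ω s = 0), ← mul_assoc,
      prob_tight hK x s, card_univ]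
  rw [sum_congr rfl h2, sum_const, card_univ, nsmul_eq_mul]
  simp only [Fintype.card_pi, Fintype.card_fin, prod_const, card_univ]
  push_cast
  ring

theorem flip_count (hK : 1 ≤ K) {x : ℕ} (hx : 0 < x) {c : Fin (K + 1) → ℝ} (hc : ∀ p, c p ≠ 0)
    {L : Var (K + 1) n → ℝ} (hL : L ≠ 0) {Z' : Finset (Th K n x × Tup (K + 1) n)}
    (hZ : Z' ⊆ ZZ K n x)
    (h : ∀ p ∈ Z', (∃ a : ℝ, L = a • form c p.2) ∨ (L (lv p.2) ≠ 0 ∧ dot L (qv c p.1.1.1) = 0 ∧
      ∃ e ∈ vs p.2, Fst p.1.2 (sp L ∪ vs p.2) e)) :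
    (#Z' : ℝ) ≤ (1 + (K + 1) * (n : ℝ) ^ K / x) / (K * x) *
      ((Om K n x).card * Fintype.card (Equiv.Perm (Var (K + 1) n)) : ℝ) := by
  classical
  have hK' : (0 : ℝ) < K := by exact_mod_cast hK
  have hx' : (0 : ℝ) < x := by exact_mod_cast hx
  set O : ℝ := ((Om K n x).card : ℝ) with hO
  set N : ℝ := (Fintype.card (Equiv.Perm (Var (K + 1) n)) : ℝ) with hN
  have hO0 : 0 ≤ O := Nat.cast_nonneg _
  have hN0 : 0 ≤ N := Nat.cast_nonneg _
  have hsp : 0 < #(sp L) := by
    obtain ⟨e, he⟩ := exists_coeff hL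
    exact card_pos.2 ⟨e, mem_sp.2 he⟩
  have hsp' : (0 : ℝ) < #(sp L) := by exact_mod_cast hsp
  have h1 : #Z' = ∑ s : Tup (K + 1) n, #(Z'.filter fun p => p.2 = s) :=
    card_eq_sum_card_fiberwise fun p _ => mem_coe.2 (mem_univ _)
  -- one fibre
  have h2 : ∀ s : Tup (K + 1) n, (#(Z'.filter fun p => p.2 = s) : ℝ) ≤
      (if ∃ a : ℝ, L = a • form c s then O / (K * x) * N else 0) +
      (if lv s ∈ sp L then O / (K * x ^ 2) * ((K + 1) * N / #(sp L)) else 0) := by
    intro s
    have hfib : #(Z'.filter fun p => p.2 = s) = #((Z'.filter fun p => p.2 = s).image Prod.fst) := by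
      rw [card_image_of_injOn]
      intro p hp q hq hpq
      have hp' := (mem_filter.1 (mem_coe.1 hp)).2
      have hq' := (mem_filter.1 (mem_coe.1 hq)).2
      exact Prod.ext hpq (hp'.trans hq'.symm)
    have hpos1 : 0 ≤ O / (K * x) * N := by positivity
    have hpos2 : 0 ≤ O / (K * x ^ 2) * ((K + 1) * N / #(sp L)) := by positivity
    by_cases hs : ∃ a : ℝ, L = a • form c s
    · rw [if_pos hs]
      have h3 : (Z'.filter fun p => p.2 = s).image Prod.fst ⊆
          (univ.filter fun ω : Om K n x => lab ω.1 s = 0) ×ˢ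
            (univ : Finset (Equiv.Perm (Var (K + 1) n))) := by
        intro θ hθ
        rw [mem_image] at hθ
        obtain ⟨p, hp, rfl⟩ := hθ
        rw [mem_filter] at hp
        have h4 := hZ hp.1
        unfold ZZ at h4
        rw [mem_filter, hp.2] at h4
        rw [mem_product, mem_filter]
        exact ⟨⟨mem_univ _, h4.2⟩, mem_univ _⟩
      have h4 := card_le_card h3
      rw [card_product, card_univ] at h4
      have h5 : (#(univ.filter fun ω : Om K n x => lab ω.1 s = 0) : ℝ) = O / (K * x) := by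
        rw [card_sub (fun ω => lab ω s = 0), eq_div_iff (by positivity), mul_comm]
        exact prob_tight hK x s
      rw [hfib]
      have h6 : (#((Z'.filter fun p => p.2 = s).image Prod.fst) : ℝ) ≤
          (#(univ.filter fun ω : Om K n x => lab ω.1 s = 0) : ℝ) * N := by
        rw [hN]
        exact_mod_cast h4
      rw [h5] at h6
      refine h6.trans (le_add_of_nonneg_right ?_)
      split_ifs
      · exact hpos2
      · exact le_rfl
    · rw [if_neg hs, zero_add]
      by_cases hl : lv s ∈ sp L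
      · rw [if_pos hl]
        have h3 : (Z'.filter fun p => p.2 = s).image Prod.fst ⊆
            (univ.filter fun ω : Om K n x => lab ω.1 s = 0 ∧ dot L (qv c ω.1) = 0) ×ˢ
            (univ.filter fun π : Equiv.Perm (Var (K + 1) n) =>
              ∃ e ∈ vs s, Fst π (sp L ∪ vs s) e) := by
          intro θ hθ
          rw [mem_image] at hθ
          obtain ⟨p, hp, rfl⟩ := hθ
          rw [mem_filter] at hp
          have h4 := hZ hp.1
          unfold ZZ at h4
          rw [mem_filter, hp.2] at h4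
          have h5 := h p hp.1
          rw [hp.2] at h5
          obtain ⟨-, h6, h7⟩ := h5.resolve_left hs
          rw [mem_product, mem_filter, mem_filter]
          exact ⟨⟨mem_univ _, h4.2, h6⟩, mem_univ _, h7⟩
        have h4 := card_le_card h3
        rw [card_product] at h4
        have h5 : (#(univ.filter fun ω : Om K n x => lab ω.1 s = 0 ∧ dot L (qv c ω.1) = 0) : ℝ) ≤
            O / (K * x ^ 2) := by
          rw [card_sub (fun ω => lab ω s = 0 ∧ dot L (qv c ω) = 0), le_div_iff₀ (by positivity),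
            mul_comm]
          exact prob_two hK hc hs
        have h6 : (#(univ.filter fun π : Equiv.Perm (Var (K + 1) n) =>
              ∃ e ∈ vs s, Fst π (sp L ∪ vs s) e) : ℝ) ≤ (K + 1) * N / #(sp L) := by
          rw [le_div_iff₀ hsp', mul_comm]
          exact card_flip L s
        rw [hfib]
        have h7 : (#((Z'.filter fun p => p.2 = s).image Prod.fst) : ℝ) ≤
            (#(univ.filter fun ω : Om K n x => lab ω.1 s = 0 ∧ dot L (qv c ω.1) = 0) : ℝ) *
            (#(univ.filter fun π : Equiv.Perm (Var (K + 1) n) =>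
              ∃ e ∈ vs s, Fst π (sp L ∪ vs s) e) : ℝ) := by
          exact_mod_cast h4
        exact h7.trans (mul_le_mul h5 h6 (Nat.cast_nonneg _) (by positivity))
      · rw [if_neg hl]
        have h3 : Z'.filter (fun p => p.2 = s) = ∅ := by
          apply filter_false_of_mem
          intro p hp hps
          have h5 := h p hp
          rw [hps] at h5
          exact hl (mem_sp.2 (h5.resolve_left hs).1)
        rw [h3]
        simp
  have h3 : (#Z' : ℝ) ≤ ∑ s : Tup (K + 1) n,
      ((if ∃ a : ℝ, L = a • form c s then O / (K * x) * N else 0) +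
      (if lv s ∈ sp L then O / (K * x ^ 2) * ((K + 1) * N / #(sp L)) else 0)) := by
    rw [h1]
    push_cast
    exact sum_le_sum fun s _ => h2 s
  refine h3.trans ?_
  rw [sum_add_distrib]
  have h4 : ∑ s : Tup (K + 1) n, (if ∃ a : ℝ, L = a • form c s then O / (K * x) * N else 0) ≤
      O / (K * x) * N := by
    rw [← sum_filter, sum_const, nsmul_eq_mul]
    have h5 : #(univ.filter fun s : Tup (K + 1) n => ∃ a : ℝ, L = a • form c s) ≤ 1 := by
      rw [card_le_one]
      intro s hs s' hs'
      obtain ⟨a, ha⟩ := (mem_filter.1 hs).2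
      obtain ⟨b, hb⟩ := (mem_filter.1 hs').2
      have ha0 : a ≠ 0 := by
        rintro rfl
        rw [zero_smul] at ha
        exact hL ha
      refine form_inj hc (a := a⁻¹ * b) ?_
      rw [mul_smul, ← hb, ha, smul_smul, inv_mul_cancel₀ ha0, one_smul]
    have h6 : (#(univ.filter fun s : Tup (K + 1) n => ∃ a : ℝ, L = a • form c s) : ℝ) ≤ 1 := by
      exact_mod_cast h5
    have h7 : 0 ≤ O / (K * x) * N := by positivity
    calc _ ≤ 1 * (O / (K * x) * N) := mul_le_mul_of_nonneg_right h6 h7
      _ = _ := one_mul _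
  have h5 : ∑ s : Tup (K + 1) n,
      (if lv s ∈ sp L then O / (K * x ^ 2) * ((K + 1) * N / #(sp L)) else 0) ≤
      (n : ℝ) ^ K * (O / (K * x ^ 2) * ((K + 1) * N)) := by
    rw [← sum_filter, sum_const, nsmul_eq_mul]
    have h6 := card_lv L
    have h7 : 0 ≤ O / (K * x ^ 2) * ((K + 1) * N / #(sp L)) := by positivity
    calc (#(univ.filter fun s : Tup (K + 1) n => lv s ∈ sp L) : ℝ) *
        (O / (K * x ^ 2) * ((K + 1) * N / #(sp L)))
        ≤ ((n : ℝ) ^ K * #(sp L)) * (O / (K * x ^ 2) * ((K + 1) * N / #(sp L))) :=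
          mul_le_mul_of_nonneg_right h6 h7
      _ = (n : ℝ) ^ K * (O / (K * x ^ 2) * ((K + 1) * N)) * (#(sp L) / #(sp L)) := by ring
      _ = _ := by rw [div_self hsp'.ne', mul_one]
  calc _ ≤ O / (K * x) * N + (n : ℝ) ^ K * (O / (K * x ^ 2) * ((K + 1) * N)) := add_le_add h4 h5
    _ = _ := by ring

end Pool.Agent.H692.RT
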