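import Mathlib
import Pool.Agent.H692.RT.Count

/-!
# Randomized trees with two rounds
-/

set_option autoImplicit false
set_option linter.unusedSectionVars false

namespace Pool.Agent.H692.RT

open Finset Filter Topology
open Pool.Agent.H692.KS

variable {K n : ℕ}

open Classical in
/-- the probability that the property `Q` holds, if `ρ` has the probability `p ρ` -/
noncomputable def prob {Ω : Type} [Fintype Ω] (p : Ω → ℝ) (Q : Ω → Prop) : ℝ :=
  ∑ ρ, if Q ρ then p ρ else 0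

theorem prob_eq {Ω : Type} [Fintype Ω] (p : Ω → ℝ) (Q : Ω → Prop) [DecidablePred Q] :
    prob p Q = ∑ ρ, if Q ρ then p ρ else 0 := by
  unfold prob
  refine sum_congr rfl fun ρ _ => ?_
  split_ifs <;> rfl

theorem rand_tradeoff (hK : 1 ≤ K) {c : Fin (K + 1) → ℝ} (hc : ∀ p, c p ≠ 0) {κ : Type} [Finite κ]
    {E : κ → Var (K + 1) n → ℝ} (hE : Indep c E) {P : Type} [TopologicalSpace P] [BaireSpace P]
    {pot : P → Var (K + 1) n → ℝ} (hpot : Continuous pot) (hval : ∀ y s, val c (pot y) s = 0)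
    (hEpot : ∀ y e, dot (E e) (pot y) = 0)
    {W : Set (Var (K + 1) n → ℝ)} (hW : IsOpen W) {y₀ : P} (hy₀ : pot y₀ ∈ W)
    {β : Type} (φ : β → Bool) {Ω : Type} [Fintype Ω] (p : Ω → ℝ) (hp0 : ∀ ρ, 0 ≤ p ρ)
    (hp1 : ∑ ρ, p ρ = 1) (t : Ω → RTree pot β) {γ T : ℝ} {x : ℕ} (hx : 1 ≤ x)
    (hno : ∀ w ∈ W, (∀ s, val c w s ≠ 0) → (∀ e, dot (E e) w ≠ 0) →
      (1 + γ) / 2 ≤ prob p (fun ρ => φ ((t ρ).run w) = false) ∧ (∀ ρ, (t ρ).rounds w ≤ 2) ∧
        ∑ ρ, p ρ * (t ρ).tests w ≤ T)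
    (hyes : ∀ w ∈ W, ∀ τ, val c w τ = 0 → (∀ s, s ≠ τ → val c w s ≠ 0) →
      (∀ e, dot (E e) w ≠ 0) → (1 + γ) / 2 ≤ prob p (fun ρ => φ ((t ρ).run w) = true)) :
    γ * (n : ℝ) ^ (K + 1) ≤ (1 + (K + 1) * (n : ℝ) ^ K / x + K * x) * T := by
  classical
  have hx0 : 0 < x := hx
  have hx' : (0 : ℝ) < x := by exact_mod_cast hx
  have hK' : (0 : ℝ) < K := by exact_mod_cast hK
  -- the generic special input
  obtain ⟨x₀, hxW, hgood⟩ : ∃ x₀, pot x₀ ∈ W ∧ ∀ ρ, Good φ (t ρ) x₀ := by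
    have hd : Dense {x | ∀ ρ, Good φ (t ρ) x} :=
      dense_of_mem_residual (eventually_all.2 fun ρ => good hpot φ (t ρ))
    obtain ⟨x₀, h1, h2⟩ := hd.inter_open_nonempty (pot ⁻¹' W) (hW.preimage hpot) ⟨y₀, hy₀⟩
    exact ⟨x₀, h1, h2⟩
  let R : Ω → KS.LT (Var (K + 1) n) := fun ρ => red φ (t ρ) x₀
  have hev : ∀ v : Var (K + 1) n → ℝ, ∃ ε : ℝ, 0 < ε ∧ pot x₀ + ε • v ∈ W ∧
      ∀ ρ, (R ρ).Gen v → φ ((t ρ).run (pot x₀ + ε • v)) = (R ρ).run v ∧
      (R ρ).rounds v = (t ρ).rounds (pot x₀ + ε • v) ∧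
      (R ρ).tests v = (t ρ).tests (pot x₀ + ε • v) := by
    intro v
    have h1 : ∀ᶠ ε in 𝓝[>] (0 : ℝ), ∀ ρ, (R ρ).Gen v →
        φ ((t ρ).run (pot x₀ + ε • v)) = (R ρ).run v ∧
        (R ρ).rounds v = (t ρ).rounds (pot x₀ + ε • v) ∧
        (R ρ).tests v = (t ρ).tests (pot x₀ + ε • v) := by
      refine eventually_all.2 fun ρ => ?_
      by_cases hG : (R ρ).Gen v
      · filter_upwards [hgood ρ v hG] with ε h _
        exact h
      · exact Eventually.of_forall fun ε h => absurd h hG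
    obtain ⟨ε, ⟨h2, h3⟩, h4⟩ := ((h1.and ((tendsto_line (pot x₀) v).eventually
      (hW.mem_nhds hxW))).and self_mem_nhdsWithin).exists
    exact ⟨ε, h4, h3, h2⟩
  have hvv : ∀ (ε : ℝ) (u : Var (K + 1) n → ℝ) (s : Tup (K + 1) n),
      val c (pot x₀ + ε • u) s = ε * val c u s := by
    intro ε u s
    rw [val_add_smul, hval, zero_add]
  have hEv : ∀ (ε : ℝ) (u : Var (K + 1) n → ℝ) e,
      dot (E e) (pot x₀ + ε • u) = ε * dot (E e) u := by
    intro ε u e
    rw [dot_add_smul, hEpot, zero_add]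
  -- the forms
  set FL : Set (Var (K + 1) n → ℝ) := (⋃ ρ, forms (R ρ)) ∪ (Set.range (form c) ∪ Set.range E)
    with hFL
  have hFLfin : FL.Finite := (Set.finite_iUnion fun ρ => forms_finite (R ρ)).union
    ((Set.finite_range _).union (Set.finite_range _))
  set FL' : Set (Var (K + 1) n → ℝ) := FL ∪ ⋃ s, tl c s '' FL with hFL'
  have hFLfin' : FL'.Finite := hFLfin.union (Set.finite_iUnion fun s => hFLfin.image _)
  have hmem : ∀ ρ, ∀ L ∈ forms (R ρ), L ∈ FL := fun ρ L hL => Or.inl (Set.mem_iUnion.2 ⟨ρ, hL⟩)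
  have hmemf : ∀ s, form c s ∈ FL := fun s => Or.inr (Or.inl ⟨s, rfl⟩)
  have hmemE : ∀ e, E e ∈ FL := fun e => Or.inr (Or.inr ⟨e, rfl⟩)
  have hmem' : ∀ L ∈ FL, L ∈ FL' := fun L hL => Or.inl hL
  have hmemtl : ∀ L ∈ FL, ∀ s, tl c s L ∈ FL' := fun L hL s =>
    Or.inr (Set.mem_iUnion.2 ⟨s, L, hL, rfl⟩)
  obtain ⟨δ, η, hδ, hη, hbase⟩ := exists_base (fun ω : Om K n x => qv c ω.1) hFLfin'
  set u : Th K n x → Var (K + 1) n → ℝ := fun θ => qv c θ.1.1 + η • hv δ θ.2 with hu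
  have hsp : ∀ L : Var (K + 1) n → ℝ, (univ.filter fun e => L e ≠ 0) = sp L := by
    intro L
    ext e
    rw [mem_sp]
    simp
  have hb1 : ∀ (θ : Th K n x), ∀ L ∈ FL', L ≠ 0 → dot L (qv c θ.1.1) ≠ 0 →
      SignType.sign (dot L (u θ)) = SignType.sign (dot L (qv c θ.1.1)) :=
    fun θ L hL h0 h => (hbase θ.1 θ.2 L hL h0).1 h
  have hb2 : ∀ (θ : Th K n x), ∀ L ∈ FL', L ≠ 0 → dot L (qv c θ.1.1) = 0 → ∀ e,
      Fst θ.2 (sp L) e → SignType.sign (dot L (u θ)) = SignType.sign (L e) := by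
    intro θ L hL h0 h e he
    have h1 := (hbase θ.1 θ.2 L hL h0).2 h e
    rw [hsp] at h1
    exact h1 he
  have hune : ∀ (θ : Th K n x), ∀ L ∈ FL', L ≠ 0 → dot L (u θ) ≠ 0 := by
    intro θ L hL h0 h
    by_cases h1 : dot L (qv c θ.1.1) = 0
    · obtain ⟨e', he'⟩ := exists_coeff h0
      obtain ⟨e, he⟩ := exists_fst θ.2 (S := sp L) ⟨e', mem_sp.2 he'⟩
      have h2 := hb2 θ L hL h0 h1 e he
      rw [h, sign_zero] at h2
      exact mem_sp.1 he.1 (sign_eq_zero_iff.1 h2.symm)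
    · have h2 := hb1 θ L hL h0 h1
      rw [h, sign_zero] at h2
      exact h1 (sign_eq_zero_iff.1 h2.symm)
  have hzne : ∀ (θ : Th K n x) s, ∀ L ∈ FL, (¬ ∃ a : ℝ, L = a • form c s) →
      dot L (yes c (u θ) s) ≠ 0 := by
    intro θ s L hL h
    rw [dot_yes]
    exact hune θ _ (hmemtl L hL s) (tl_ne h)
  obtain ⟨ε, hε1, hε⟩ : ∃ ε : ℝ, (∀ (θ : Th K n x) s, ∀ L ∈ FL, (¬ ∃ a : ℝ, L = a • form c s) →
      SignType.sign (dot L (noi c (u θ) ε s)) = SignType.sign (dot L (yes c (u θ) s))) ∧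
      0 < ε := by
    have h1 : ∀ᶠ ε in 𝓝[>] (0 : ℝ), ∀ (θ : Th K n x) s, ∀ L ∈ FL,
        (¬ ∃ a : ℝ, L = a • form c s) →
        SignType.sign (dot L (noi c (u θ) ε s)) = SignType.sign (dot L (yes c (u θ) s)) := by
      refine eventually_all.2 fun θ => eventually_all.2 fun s => (eventually_all_finite hFLfin).2
        fun L hL => ?_
      by_cases h : ∃ a : ℝ, L = a • form c s
      · exact Eventually.of_forall fun ε h' => absurd h h'
      · filter_upwards [eventually_sign L (yes c (u θ) s) (Pi.single (lv s) 1)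
          (hzne θ s L hL h)] with ε h2 _
        exact h2
    obtain ⟨ε, h2, h3⟩ := (h1.and self_mem_nhdsWithin).exists
    exact ⟨ε, h2, h3⟩
  have hyne : ∀ (θ : Th K n x) s, ∀ L ∈ FL, L ≠ 0 → dot L (noi c (u θ) ε s) ≠ 0 := by
    intro θ s L hL h0
    by_cases h : ∃ a : ℝ, L = a • form c s
    · obtain ⟨a, rfl⟩ := h
      rw [dot_noi_smul hc]
      have ha : a ≠ 0 := by
        rintro rfl
        rw [zero_smul] at h0
        exact h0 rfl
      exact mul_ne_zero hε.ne' (mul_ne_zero ha (hc _))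
    · intro h1
      have h2 := hε1 θ s L hL h
      rw [h1, sign_zero] at h2
      exact hzne θ s L hL h (sign_eq_zero_iff.1 h2.symm)
  -- no-instances
  have hA : ∀ v : Var (K + 1) n → ℝ, (∀ L ∈ FL, L ≠ 0 → dot L v ≠ 0) →
      (1 + γ) / 2 ≤ prob p (fun ρ => (R ρ).run v = false) ∧ (∀ ρ, (R ρ).rounds v ≤ 2) ∧
        ∑ ρ, p ρ * (R ρ).tests v ≤ T := by
    intro v hvF
    obtain ⟨ε', hε', h1, h2⟩ := hev v
    have hG : ∀ ρ, (R ρ).Gen v := fun ρ => gen_of _ fun L hL h0 => hvF L (hmem ρ L hL) h0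
    have h3 := hno _ h1 (fun s => by
        rw [hvv]
        refine mul_ne_zero hε'.ne' ?_
        rw [← dot_form]
        exact hvF _ (hmemf s) (form_ne hc s))
      (fun e => by
        rw [hEv]
        exact mul_ne_zero hε'.ne' (hvF _ (hmemE e) (hE e).1))
    have e1 : (fun ρ => (R ρ).run v = false) =
        fun ρ => φ ((t ρ).run (pot x₀ + ε' • v)) = false := by
      funext ρ
      rw [(h2 ρ (hG ρ)).1]
    refine ⟨by rw [e1]; exact h3.1, fun ρ => ?_, ?_⟩
    · rw [(h2 ρ (hG ρ)).2.1]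
      exact h3.2.1 ρ
    · rw [sum_congr rfl fun ρ _ => by rw [(h2 ρ (hG ρ)).2.2]]
      exact h3.2.2
  have hpair : ∀ q ∈ ZZ K n x, γ ≤ prob p (fun ρ => ¬ ((R ρ).Gen (yes c (u q.1) q.2) ∧
      (R ρ).run (noi c (u q.1) ε q.2) = (R ρ).run (yes c (u q.1) q.2))) := by
    intro q _
    have h1 := (hA _ (hyne q.1 q.2)).1
    obtain ⟨ε', hε', h2, h3⟩ := hev (yes c (u q.1) q.2)
    have h4 := hyes _ h2 q.2 (by
        rw [hvv, ← dot_form, dot_yes]
        have : tl c q.2 (form c q.2) = 0 := by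
          unfold tl
          rw [form_lv, div_self (hc _), one_smul, sub_self]
        rw [this]
        unfold dot
        simp)
      (fun s hs => by
        rw [hvv, ← dot_form]
        refine mul_ne_zero hε'.ne' (hzne _ _ _ (hmemf s) ?_)
        rintro ⟨a, ha⟩
        exact hs (form_inj hc ha))
      (fun e => by
        rw [hEv]
        refine mul_ne_zero hε'.ne' (hzne _ _ _ (hmemE e) ?_)
        rintro ⟨a, ha⟩
        exact (hE e).2 _ a ha)
    have h5 : ∀ ρ, (if (R ρ).run (noi c (u q.1) ε q.2) = false then p ρ else 0) +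
        (if φ ((t ρ).run (pot x₀ + ε' • yes c (u q.1) q.2)) = true then p ρ else 0) ≤
        p ρ + (if ¬ ((R ρ).Gen (yes c (u q.1) q.2) ∧
      (R ρ).run (noi c (u q.1) ε q.2) = (R ρ).run (yes c (u q.1) q.2)) then p ρ else 0) := by
      intro ρ
      have h0 := hp0 ρ
      by_cases hb : (R ρ).Gen (yes c (u q.1) q.2) ∧
          (R ρ).run (noi c (u q.1) ε q.2) = (R ρ).run (yes c (u q.1) q.2)
      · rw [if_neg (not_not.2 hb), (h3 ρ hb.1).1, hb.2]
        cases (R ρ).run (yes c (u q.1) q.2) <;> simp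
      · rw [if_pos hb]
        split_ifs <;> linarith
    have h6 := sum_le_sum fun ρ (_ : ρ ∈ (univ : Finset Ω)) => h5 ρ
    rw [sum_add_distrib, sum_add_distrib, hp1] at h6
    rw [prob_eq] at h1 h4
    rw [prob_eq]
    linarith
  -- counting
  set O : ℝ := ((Om K n x).card : ℝ) with hO
  set N : ℝ := (Fintype.card (Equiv.Perm (Var (K + 1) n)) : ℝ) with hN
  have hO0 : 0 < O := by
    have := card_pos.2 (Om_nonempty (n := n) hK hx0)
    rw [hO]
    exact_mod_cast this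
  have hN0 : 0 < N := by
    rw [hN]
    exact_mod_cast Fintype.card_pos
  set B : ℝ := (1 + (K + 1) * (n : ℝ) ^ K / x) / (K * x) * (O * N) with hB
  have hB0 : 0 ≤ B := by positivity
  obtain ⟨ω₀, hω₀⟩ := Om_nonempty (n := n) hK hx0
  let θ₀ : Th K n x := (⟨ω₀, hω₀⟩, 1)
  have hcnt : ∀ ρ, (#((ZZ K n x).filter fun q => ¬ ((R ρ).Gen (yes c (u q.1) q.2) ∧
      (R ρ).run (noi c (u q.1) ε q.2) = (R ρ).run (yes c (u q.1) q.2))) : ℝ) ≤
      B * (R ρ).tests (u θ₀) + ∑ θ, ((R ρ).tests (u θ) : ℝ) := by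
    intro ρ
    refine two_rounds (F := form c) (fun f f' a h => form_inj hc h) (R ρ) (ZZ K n x) u
      (fun θ s => noi c (u θ) ε s) (fun θ s => yes c (u θ) s) hB0 ?_ ?_ ?_ θ₀
      (filter_subset _ _) ?_
    · intro q _ L hL _ hne
      exact ⟨hε1 q.1 q.2 L (hmem ρ L hL) hne, hzne q.1 q.2 L (hmem ρ L hL) hne⟩
    · intro q _
      exact (hA _ (hyne q.1 q.2)).2.1 ρ
    · intro L hL h0 Z' hZ' hq
      refine flip_count hK hx0 hc h0 hZ' fun q hqZ => ?_
      by_cases hne : ∃ a : ℝ, L = a • form c q.2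
      · exact Or.inl hne
      right
      have h1 := (hq q hqZ).resolve_right hne
      have hLF := hmem ρ L hL
      rw [hε1 q.1 q.2 L hLF hne, dot_yes] at h1
      have htl := tl_ne hne
      have htlF := hmemtl L hLF q.2
      have htight : lab q.1.1.1 q.2 = 0 := by
        have := hZ' hqZ
        unfold ZZ at this
        exact (mem_filter.1 this).2
      have hq1 : dot (tl c q.2 L) (qv c q.1.1.1) = dot L (qv c q.1.1.1) := by
        rw [dot_tl, val_qv hc, htight, mul_zero, sub_zero]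
      have hl : L (lv q.2) ≠ 0 := by
        intro h
        apply h1
        have : tl c q.2 L = L := by
          unfold tl
          rw [h, zero_div, zero_smul, sub_zero]
        rw [this]
      have hd : dot L (qv c q.1.1.1) = 0 := by
        by_contra h
        apply h1
        rw [hb1 q.1 _ htlF htl (by rw [hq1]; exact h), hb1 q.1 L (hmem' L hLF) h0 h, hq1]
      refine ⟨hl, hd, ?_⟩
      obtain ⟨e, he⟩ := exists_fst q.1.2 (S := sp L ∪ vs q.2)
        ⟨lv q.2, mem_union_left _ (mem_sp.2 hl)⟩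
      by_contra hcon
      push Not at hcon
      have hev' : e ∉ vs q.2 := fun h => hcon e h he
      have heL : e ∈ sp L := (mem_union.1 he.1).resolve_right hev'
      have h2 : Fst q.1.2 (sp L) e := ⟨heL, fun e' he' => he.2 e' (mem_union_left _ he')⟩
      have h3 : ∀ e', e' ∉ vs q.2 → tl c q.2 L e' = L e' := by
        intro e' he'
        unfold tl
        rw [Pi.sub_apply, Pi.smul_apply, form_of_notMem c he', smul_zero, sub_zero]
      have h4 : Fst q.1.2 (sp (tl c q.2 L)) e := by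
        refine ⟨mem_sp.2 (by rw [h3 e hev']; exact mem_sp.1 heL), fun e' he' => he.2 e' ?_⟩
        by_cases hv' : e' ∈ vs q.2
        · exact mem_union_right _ hv'
        · exact mem_union_left _ (mem_sp.2 (by rw [← h3 e' hv']; exact mem_sp.1 he'))
      apply h1
      rw [hb2 q.1 _ htlF htl (by rw [hq1]; exact hd) e h4,
        hb2 q.1 L (hmem' L hLF) h0 hd e h2, h3 e hev']
    · intro q hq
      exact (mem_filter.1 hq).2
  have hugen : ∀ θ : Th K n x, ∑ ρ, p ρ * (R ρ).tests (u θ) ≤ T := fun θ =>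
    (hA (u θ) fun L hL h0 => hune θ L (hmem' L hL) h0).2.2
  have hsum : γ * #(ZZ K n x) ≤ B * T + (O * N) * T := by
    calc γ * #(ZZ K n x) = ∑ _q ∈ ZZ K n x, γ := by rw [sum_const, nsmul_eq_mul]; ring
      _ ≤ ∑ q ∈ ZZ K n x, prob p (fun ρ => ¬ ((R ρ).Gen (yes c (u q.1) q.2) ∧
          (R ρ).run (noi c (u q.1) ε q.2) = (R ρ).run (yes c (u q.1) q.2))) :=
          sum_le_sum hpair
      _ = ∑ ρ, p ρ * (#((ZZ K n x).filter fun q => ¬ ((R ρ).Gen (yes c (u q.1) q.2) ∧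
          (R ρ).run (noi c (u q.1) ε q.2) = (R ρ).run (yes c (u q.1) q.2))) : ℝ) := by
          simp only [prob_eq]
          rw [sum_comm]
          refine sum_congr rfl fun ρ _ => ?_
          rw [← sum_filter, sum_const, nsmul_eq_mul, mul_comm]
      _ ≤ ∑ ρ, p ρ * (B * (R ρ).tests (u θ₀) + ∑ θ, ((R ρ).tests (u θ) : ℝ)) :=
          sum_le_sum fun ρ _ => mul_le_mul_of_nonneg_left (hcnt ρ) (hp0 ρ)
      _ = B * ∑ ρ, p ρ * ((R ρ).tests (u θ₀) : ℝ) +
          ∑ θ, ∑ ρ, p ρ * ((R ρ).tests (u θ) : ℝ) := by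
          rw [sum_comm, mul_sum, ← sum_add_distrib]
          refine sum_congr rfl fun ρ _ => ?_
          rw [mul_add, mul_sum]
          ring
      _ ≤ B * T + ∑ _θ : Th K n x, T :=
          add_le_add (mul_le_mul_of_nonneg_left (hugen θ₀) hB0) (sum_le_sum fun θ _ => hugen θ)
      _ = B * T + (O * N) * T := by
          rw [sum_const, card_univ, nsmul_eq_mul, Fintype.card_prod, Fintype.card_coe]
          push_cast
          rfl
  have hZ := card_ZZ (n := n) hK hx0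
  have h1 : (K * x : ℝ) * (γ * #(ZZ K n x)) ≤ (K * x : ℝ) * (B * T + (O * N) * T) :=
    mul_le_mul_of_nonneg_left hsum (by positivity)
  have h2 : (K * x : ℝ) * (γ * #(ZZ K n x)) = (γ * (n : ℝ) ^ (K + 1)) * (O * N) := by
    calc (K * x : ℝ) * (γ * #(ZZ K n x)) = γ * ((K * x : ℝ) * #(ZZ K n x)) := by ring
      _ = _ := by rw [hZ]; ring
  have h3 : (K * x : ℝ) * (B * T + (O * N) * T) =
      ((1 + (K + 1) * (n : ℝ) ^ K / x + K * x) * T) * (O * N) := by
    rw [hB]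
    have h4 : (K * x : ℝ) ≠ 0 := by positivity
    calc (K * x : ℝ) * ((1 + (K + 1) * (n : ℝ) ^ K / x) / (K * x) * (O * N) * T + (O * N) * T)
        = ((K * x : ℝ) / (K * x)) * ((1 + (K + 1) * (n : ℝ) ^ K / x) * (O * N) * T) +
          (K * x) * ((O * N) * T) := by ring
      _ = _ := by rw [div_self h4]; ring
  rw [h2, h3] at h1
  exact le_of_mul_le_mul_right h1 (mul_pos hO0 hN0)

end Pool.Agent.H692.RT
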