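import Mathlib
import Pool.Agent.H692.RT.Main

/-!
# Randomized trees with two rounds: the exponent, and 3SUM for one list
-/

set_option autoImplicit false
set_option linter.unusedSectionVars false

namespace Pool.Agent.H692.RT

open Finset Filter Topology
open Pool.Agent.H692.KS

variable {K n : ℕ}

theorem rand_headline (hK : 1 ≤ K) {c : Fin (K + 1) → ℝ} (hc : ∀ p, c p ≠ 0) {κ : Type} [Finite κ]
    {E : κ → Var (K + 1) n → ℝ} (hE : Indep c E) {P : Type} [TopologicalSpace P] [BaireSpace P]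
    {pot : P → Var (K + 1) n → ℝ} (hpot : Continuous pot) (hval : ∀ y s, val c (pot y) s = 0)
    (hEpot : ∀ y e, dot (E e) (pot y) = 0)
    {W : Set (Var (K + 1) n → ℝ)} (hW : IsOpen W) {y₀ : P} (hy₀ : pot y₀ ∈ W)
    {β : Type} (φ : β → Bool) {Ω : Type} [Fintype Ω] (p : Ω → ℝ) (hp0 : ∀ ρ, 0 ≤ p ρ)
    (hp1 : ∑ ρ, p ρ = 1) (t : Ω → RTree pot β) {γ T : ℝ} (hγ : 0 < γ) (hn : 1 ≤ n)
    (hno : ∀ w ∈ W, (∀ s, val c w s ≠ 0) → (∀ e, dot (E e) w ≠ 0) →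
      (1 + γ) / 2 ≤ prob p (fun ρ => φ ((t ρ).run w) = false) ∧ (∀ ρ, (t ρ).rounds w ≤ 2) ∧
        ∑ ρ, p ρ * (t ρ).tests w ≤ T)
    (hyes : ∀ w ∈ W, ∀ τ, val c w τ = 0 → (∀ s, s ≠ τ → val c w s ≠ 0) →
      (∀ e, dot (E e) w ≠ 0) → (1 + γ) / 2 ≤ prob p (fun ρ => φ ((t ρ).run w) = true)) :
    γ * (n : ℝ) ^ (1 + (K : ℝ) / 2) ≤ (3 * K + 2) * T := by
  have hn' : (1 : ℝ) ≤ n := by exact_mod_cast hn
  have hn0 : (0 : ℝ) < n := by linarith
  have hK' : (0 : ℝ) < K := by exact_mod_cast hK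
  set y : ℝ := (n : ℝ) ^ ((K : ℝ) / 2) with hy
  have hy1 : 1 ≤ y := Real.one_le_rpow hn' (by positivity)
  have hy0 : 0 < y := by linarith
  have hyy : (n : ℝ) ^ K = y * y := by
    rw [hy, ← Real.rpow_add hn0, ← Real.rpow_natCast]
    congr 1
    ring
  have hmain : (n : ℝ) ^ (1 + (K : ℝ) / 2) = n * y := by
    rw [Real.rpow_add hn0, Real.rpow_one]
  rw [hmain]
  set x : ℕ := ⌈y⌉₊ with hx
  have hx1 : y ≤ x := Nat.le_ceil _
  have hx2 : (x : ℝ) < y + 1 := Nat.ceil_lt_add_one hy0.le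
  have hx3 : (x : ℝ) ≤ 2 * y := by linarith
  have hx4 : 1 ≤ x := by
    have : (1 : ℝ) ≤ x := by linarith
    exact_mod_cast this
  have hx0 : (0 : ℝ) < x := by linarith
  have h := rand_tradeoff hK hc hE hpot hval hEpot hW hy₀ φ p hp0 hp1 t hx4 hno hyes
  have hT : 0 < T := by
    by_contra hT
    push Not at hT
    have h1 : 0 < γ * (n : ℝ) ^ (K + 1) := by positivity
    have h2 : (1 + (K + 1) * (n : ℝ) ^ K / x + K * x) * T ≤ 0 :=
      mul_nonpos_of_nonneg_of_nonpos (by positivity) hT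
    linarith
  have h1 : 1 + (K + 1) * (n : ℝ) ^ K / x + K * x ≤ (3 * K + 2) * y := by
    have h2 : (n : ℝ) ^ K / x ≤ y := by
      rw [div_le_iff₀ hx0, hyy]
      exact mul_le_mul_of_nonneg_left hx1 hy0.le
    have h3 : (K + 1) * (n : ℝ) ^ K / x ≤ (K + 1) * y := by
      rw [mul_div_assoc]
      exact mul_le_mul_of_nonneg_left h2 (by positivity)
    have h4 : (K : ℝ) * x ≤ K * (2 * y) := mul_le_mul_of_nonneg_left hx3 hK'.le
    linarith
  have h5 : (γ * (n * y)) * y ≤ ((3 * K + 2) * T) * y := by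
    calc (γ * (n * y)) * y = γ * (n : ℝ) ^ (K + 1) := by rw [pow_succ, hyy]; ring
      _ ≤ (1 + (K + 1) * (n : ℝ) ^ K / x + K * x) * T := h
      _ ≤ ((3 * K + 2) * y) * T := mul_le_mul_of_nonneg_right h1 hT.le
      _ = ((3 * K + 2) * T) * y := by ring
  exact le_of_mul_le_mul_right h5 hy0

/-! ### three numbers of a list with sum zero -/

/-- the coefficients of `a + b + c` -/
def c111 : Fin (2 + 1) → ℝ := fun _ => 1

theorem c111_ne : ∀ p, c111 p ≠ 0 := fun _ => one_ne_zero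

theorem val_c111 (w : Var (2 + 1) n → ℝ) (s : Tup (2 + 1) n) :
    val c111 w s = w (0, s 0) + w (1, s 1) + w (2, s 2) := by
  unfold KS.val c111
  rw [Fin.sum_univ_three]
  ring

/-- the numbers of the three parts are near `1`, `3` and `-4` -/
def near0 : Set (Var (2 + 1) n → ℝ) :=
  {w | ∀ i, |w (0, i) - 1| < 1 / 4 ∧ |w (1, i) - 3| < 1 / 4 ∧ |w (2, i) + 4| < 1 / 4}

theorem near0_open : IsOpen (near0 : Set (Var (2 + 1) n → ℝ)) := by
  have : (near0 : Set (Var (2 + 1) n → ℝ)) = ⋂ i : Fin n, {w | |w (0, i) - 1| < 1 / 4 ∧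
      |w (1, i) - 3| < 1 / 4 ∧ |w (2, i) - (-4)| < 1 / 4} := by
    ext w
    simp [near0]
  rw [this]
  refine isOpen_iInter_of_finite fun i => ?_
  have h : ∀ (v : Var (2 + 1) n) (a : ℝ), IsOpen {w : Var (2 + 1) n → ℝ | |w v - a| < 1 / 4} :=
    fun v a => isOpen_lt (((continuous_apply v).sub continuous_const).abs) continuous_const
  exact (h _ _).inter ((h _ _).inter (h _ _))

theorem pot_near0 : (pot c111 ![1, 3, -4] : Var (2 + 1) n → ℝ) ∈ near0 := by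
  intro i
  unfold pot c111
  rw [Fin.sum_univ_three]
  simp
  norm_num

/-- three distinct places `a`, `b`, `c` with `w a + w b + w c = 0` -/
def IsSol (w : Fin 3 × Fin n → ℝ) (a b c : Fin 3 × Fin n) : Prop :=
  a ≠ b ∧ a ≠ c ∧ b ≠ c ∧ w a + w b + w c = 0

open Classical in
theorem parts_of_sol {w : Var (2 + 1) n → ℝ} (hw : w ∈ near0) {a b c : Var (2 + 1) n}
    (h : w a + w b + w c = 0) :
    ∃ i j k, ({a, b, c} : Finset (Var (2 + 1) n)) = {(0, i), (1, j), (2, k)} ∧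
      w (0, i) + w (1, j) + w (2, k) = 0 := by
  obtain ⟨p, i⟩ := a
  obtain ⟨q, j⟩ := b
  obtain ⟨r, k⟩ := c
  have h1 := hw i
  have h2 := hw j
  have h3 := hw k
  simp only [abs_lt] at h1 h2 h3
  have key : ∀ p q r : Fin 3, w (p, i) + w (q, j) + w (r, k) = 0 →
      (p = 0 ∧ q = 1 ∧ r = 2) ∨ (p = 0 ∧ q = 2 ∧ r = 1) ∨ (p = 1 ∧ q = 0 ∧ r = 2) ∨
      (p = 1 ∧ q = 2 ∧ r = 0) ∨ (p = 2 ∧ q = 0 ∧ r = 1) ∨ (p = 2 ∧ q = 1 ∧ r = 0) := by
    intro p q r h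
    fin_cases p <;> fin_cases q <;> fin_cases r <;> simp at h ⊢ <;> linarith
  rcases key p q r h with ⟨rfl, rfl, rfl⟩ | ⟨rfl, rfl, rfl⟩ | ⟨rfl, rfl, rfl⟩ | ⟨rfl, rfl, rfl⟩ |
    ⟨rfl, rfl, rfl⟩ | ⟨rfl, rfl, rfl⟩
  · exact ⟨i, j, k, rfl, h⟩
  · refine ⟨i, k, j, ?_, by linarith⟩
    ext v; simp only [mem_insert, mem_singleton]; tauto
  · refine ⟨j, i, k, ?_, by linarith⟩
    ext v; simp only [mem_insert, mem_singleton]; tauto
  · refine ⟨k, i, j, ?_, by linarith⟩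
    ext v; simp only [mem_insert, mem_singleton]; tauto
  · refine ⟨j, k, i, ?_, by linarith⟩
    ext v; simp only [mem_insert, mem_singleton]; tauto
  · refine ⟨k, j, i, ?_, by linarith⟩
    ext v; simp only [mem_insert, mem_singleton]; tauto

theorem inj_of_near0 {w : Var (2 + 1) n → ℝ} (hw : w ∈ near0)
    (hE : ∀ e : Pr 2 n, dot (dif e) w ≠ 0) : Function.Injective w := by
  intro a b hab
  by_contra hne
  by_cases hp : a.1 = b.1
  · have h1 := hE ⟨(a, b), hne, hp⟩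
    rw [dot_dif] at h1
    exact h1 (sub_eq_zero.2 hab)
  · obtain ⟨p, i⟩ := a
    obtain ⟨q, j⟩ := b
    have h1 := hw i
    have h2 := hw j
    simp only [abs_lt] at h1 h2
    simp only at hp
    fin_cases p <;> fin_cases q <;> simp at hab hp <;> linarith

open Classical in
theorem three_sum_zero (hn : 1 ≤ n) {Ω : Type} [Fintype Ω] (p : Ω → ℝ) (hp0 : ∀ ρ, 0 ≤ p ρ)
    (hp1 : ∑ ρ, p ρ = 1) {β : Type} (φ : β → Bool)
    (t : Ω → RTree (pot c111 : (Fin (2 + 1) → ℝ) → Var (2 + 1) n → ℝ) β)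
    {γ T : ℝ} (hγ : 0 < γ)
    (hno : ∀ w : Fin 3 × Fin n → ℝ, Function.Injective w → (∀ a b c, ¬ IsSol w a b c) →
      (1 + γ) / 2 ≤ prob p (fun ρ => φ ((t ρ).run w) = false) ∧ (∀ ρ, (t ρ).rounds w ≤ 2) ∧
        ∑ ρ, p ρ * (t ρ).tests w ≤ T)
    (hyes : ∀ w : Fin 3 × Fin n → ℝ, Function.Injective w →
      (∃ a b c, IsSol w a b c ∧ ∀ a' b' c', IsSol w a' b' c' →
        ({a', b', c'} : Finset (Fin 3 × Fin n)) = {a, b, c}) →
      (1 + γ) / 2 ≤ prob p (fun ρ => φ ((t ρ).run w) = true)) :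
    γ * (n : ℝ) ^ 2 ≤ 8 * T := by
  have h := rand_headline (K := 2) (n := n) (by norm_num) c111_ne (indep_dif c111)
    (pot_continuous c111) (val_pot c111_ne) (dif_pot c111) near0_open (y₀ := ![1, 3, -4])
    pot_near0 φ p hp0 hp1 t hγ hn (T := T) ?_ ?_
  · have e1 : (n : ℝ) ^ (1 + ((2 : ℕ) : ℝ) / 2) = (n : ℝ) ^ 2 := by
      rw [show (1 + ((2 : ℕ) : ℝ) / 2) = ((2 : ℕ) : ℝ) by norm_num, Real.rpow_natCast]
    rw [e1] at h
    refine h.trans (le_of_eq ?_)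
    norm_num
  · intro w hw h1 h2
    refine hno w (inj_of_near0 hw h2) ?_
    rintro a b c ⟨-, -, -, h3⟩
    obtain ⟨i, j, k, -, h4⟩ := parts_of_sol hw h3
    have h5 := h1 ![i, j, k]
    rw [val_c111] at h5
    exact h5 (by simpa using h4)
  · intro w hw τ h1 h2 h3
    refine hyes w (inj_of_near0 hw h3) ?_
    rw [val_c111] at h1
    refine ⟨(0, τ 0), (1, τ 1), (2, τ 2), ⟨by simp, by simp, by simp, h1⟩, ?_⟩
    rintro a b c ⟨-, -, -, h4⟩
    obtain ⟨i, j, k, h5, h6⟩ := parts_of_sol hw h4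
    rw [h5]
    have h7 : ![i, j, k] = τ := by
      by_contra hne
      have h8 := h2 _ hne
      rw [val_c111] at h8
      exact h8 (by simpa using h6)
    rw [← h7]
    rfl

end Pool.Agent.H692.RT
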