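import Mathlib
import Pool.Agent.H692.RT.Abs

/-!
# Vectors which vanish on some coordinates
-/

set_option autoImplicit false
set_option linter.unusedSectionVars false

namespace Pool.Agent.H692.RT

open Finset Filter Topology
open Pool.Agent.H692.KS

variable {ι : Type} [Fintype ι]

section Order

variable [DecidableEq ι]

/-! ### vectors which vanish on some coordinates -/

/-- `L` without the coordinates in `S` -/
def cut (S : Finset ι) (L : ι → ℝ) : ι → ℝ := fun e => if e ∈ S then 0 else L e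

theorem dot_cut (S : Finset ι) (L w : ι → ℝ) : dot L (cut S w) = dot (cut S L) w := by
  unfold dot cut
  refine sum_congr rfl fun e _ => ?_
  split_ifs <;> ring

open Classical in
/-- a common choice of the parameters for finitely many forms, with cuts -/
theorem exists_base_cut {Ω' Φ : Type} [Finite Ω'] [Finite Φ] (q : Ω' → ι → ℝ) (S : Φ → Finset ι)
    {F : Set (ι → ℝ)} (hF : F.Finite) :
    ∃ δ η : ℝ, 0 < δ ∧ 0 < η ∧ ∀ ω, ∀ π : Equiv.Perm ι, ∀ L ∈ F,
      (dot L (q ω) ≠ 0 → SignType.sign (dot L (q ω + η • hv δ π)) = SignType.sign (dot L (q ω)) ∧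
        ∀ f, SignType.sign (dot L (q ω + η • cut (S f) (hv δ π))) =
          SignType.sign (dot L (q ω))) ∧
      (dot L (q ω) = 0 → (∀ e, Fst π (univ.filter fun e => L e ≠ 0) e →
        SignType.sign (dot L (q ω + η • hv δ π)) = SignType.sign (L e)) ∧
        ∀ f e, Fst π (univ.filter fun e => cut (S f) L e ≠ 0) e →
        SignType.sign (dot L (q ω + η • cut (S f) (hv δ π))) =
          SignType.sign (cut (S f) L e)) := by
  have h1 : ∀ᶠ δ in 𝓝[>] (0 : ℝ), ∀ L ∈ F, ∀ (π : Equiv.Perm ι) (e : ι),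
      Fst π (univ.filter fun e => L e ≠ 0) e →
        SignType.sign (dot L (hv δ π)) = SignType.sign (L e) :=
    (eventually_all_finite hF).2 fun L _ => sign_hv L
  have h1' : ∀ᶠ δ in 𝓝[>] (0 : ℝ), ∀ f, ∀ L ∈ F, ∀ (π : Equiv.Perm ι) (e : ι),
      Fst π (univ.filter fun e => cut (S f) L e ≠ 0) e →
        SignType.sign (dot (cut (S f) L) (hv δ π)) = SignType.sign (cut (S f) L e) :=
    eventually_all.2 fun f => (eventually_all_finite hF).2 fun L _ => sign_hv (cut (S f) L)
  obtain ⟨δ, ⟨h2, h2'⟩, hδ⟩ := ((h1.and h1').and self_mem_nhdsWithin).exists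
  have hδ0 : (0 : ℝ) < δ := hδ
  have h3 : ∀ᶠ η in 𝓝[>] (0 : ℝ), ∀ ω, ∀ π : Equiv.Perm ι, ∀ L ∈ F,
      (dot L (q ω) ≠ 0 → SignType.sign (dot L (q ω + η • hv δ π)) = SignType.sign (dot L (q ω)) ∧
        ∀ f, SignType.sign (dot L (q ω + η • cut (S f) (hv δ π))) =
          SignType.sign (dot L (q ω))) ∧
      (dot L (q ω) = 0 → (∀ e, Fst π (univ.filter fun e => L e ≠ 0) e →
        SignType.sign (dot L (q ω + η • hv δ π)) = SignType.sign (L e)) ∧
        ∀ f e, Fst π (univ.filter fun e => cut (S f) L e ≠ 0) e →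
        SignType.sign (dot L (q ω + η • cut (S f) (hv δ π))) =
          SignType.sign (cut (S f) L e)) := by
    refine eventually_all.2 fun ω => eventually_all.2 fun π => (eventually_all_finite hF).2
      fun L hL => ?_
    by_cases h0 : dot L (q ω) = 0
    · filter_upwards [self_mem_nhdsWithin] with η hη
      have hη0 : (0 : ℝ) < η := hη
      refine ⟨fun h => absurd h0 h, fun _ => ⟨fun e he => ?_, fun f e he => ?_⟩⟩
      · rw [dot_add_smul, h0, zero_add, sign_mul, sign_pos hη0, one_mul]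
        exact h2 L hL π e he
      · rw [dot_add_smul, h0, zero_add, sign_mul, sign_pos hη0, one_mul, dot_cut]
        exact h2' f L hL π e he
    · have h4 : ∀ᶠ η in 𝓝[>] (0 : ℝ), ∀ f, SignType.sign (dot L (q ω + η • cut (S f) (hv δ π))) =
          SignType.sign (dot L (q ω)) :=
        eventually_all.2 fun f => eventually_sign L (q ω) (cut (S f) (hv δ π)) h0
      filter_upwards [eventually_sign L (q ω) (hv δ π) h0, h4] with η hη hη'
      exact ⟨fun _ => ⟨hη, hη'⟩, fun h => absurd h h0⟩
  obtain ⟨η, h4, hη⟩ := (h3.and self_mem_nhdsWithin).exists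
  exact ⟨δ, η, hδ0, hη, h4⟩

end Order

end Pool.Agent.H692.RT
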