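import Mathlib
import Pool.Agent.H692.FR.Bad

/-!
# Triangles: a form is bad and a triangle is tight
-/

set_option autoImplicit false
set_option linter.unusedSectionVars false

namespace Pool.Agent.H692.RT

open Finset
open Pool.Agent.N575.LDT (Edge Tri Wts wt)
open Pool.Agent.H692.FR

variable {n : ℕ}

/-- three labels may be chosen again -/
theorem resample3 {x : ℕ} (a b c : Fin 3 × Fin n) (P : (Fin 3 × Fin n → ℝ) → Prop)
    [DecidablePred P]
    (h : ∀ ω : Fin 3 × Fin n → ℝ, ∀ t y z t' y' z' : ℝ,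
      P (Function.update (Function.update (Function.update ω a t) b y) c z) →
      P (Function.update (Function.update (Function.update ω a t') b y') c z') →
      t = t' ∧ y = y' ∧ z = z') :
    (x ^ 3 : ℝ) * ∑ ω ∈ Om n x, (if P ω then (1 : ℝ) else 0) ≤ (Om n x).card := by
  classical
  set F : (Fin 3 × Fin n → ℝ) → ℝ := fun ω => if P ω then (1 : ℝ) else 0 with hF
  have h1 := resample (rng n x) c F
  have h2 := resample (rng n x) b fun ω => ∑ z ∈ rng n x c, F (Function.update ω c z)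
  have h3 := resample (rng n x) a fun ω => ∑ y ∈ rng n x b, ∑ z ∈ rng n x c,
    F (Function.update (Function.update ω b y) c z)
  rw [← h2, ← h1] at h3
  have h4 : ∀ ω ∈ Fintype.piFinset (rng n x), ∑ t ∈ rng n x a, ∑ y ∈ rng n x b,
      ∑ z ∈ rng n x c,
      F (Function.update (Function.update (Function.update ω a t) b y) c z) ≤ 1 := by
    intro ω _
    have e1 : ∑ t ∈ rng n x a, ∑ y ∈ rng n x b, ∑ z ∈ rng n x c,
        F (Function.update (Function.update (Function.update ω a t) b y) c z) =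
        ∑ q ∈ rng n x a ×ˢ (rng n x b ×ˢ rng n x c),
        F (Function.update (Function.update (Function.update ω a q.1) b q.2.1) c q.2.2) := by
      rw [sum_product]
      refine sum_congr rfl fun t _ => ?_
      rw [sum_product]
    rw [e1, hF, sum_boole]
    have h5 : #{q ∈ rng n x a ×ˢ (rng n x b ×ˢ rng n x c) |
        P (Function.update (Function.update (Function.update ω a q.1) b q.2.1) c q.2.2)} ≤ 1 := by
      rw [card_le_one]
      rintro ⟨t, y, z⟩ hq ⟨t', y', z'⟩ hq'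
      have h6 := (mem_filter.1 hq).2
      have h7 := (mem_filter.1 hq').2
      obtain ⟨rfl, rfl, rfl⟩ := h ω _ _ _ _ _ _ h6 h7
      rfl
    exact_mod_cast h5
  have h5 : ((rng n x a).card : ℝ) * (((rng n x b).card : ℝ) * (((rng n x c).card : ℝ) *
      ∑ ω ∈ Fintype.piFinset (rng n x), F ω)) ≤ (Fintype.piFinset (rng n x)).card := by
    rw [h3]
    refine (sum_le_sum h4).trans ?_
    rw [sum_const, nsmul_eq_mul, mul_one]
  have ha : (x : ℝ) ≤ (rng n x a).card := by exact_mod_cast le_card_rng x a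
  have hb : (x : ℝ) ≤ (rng n x b).card := by exact_mod_cast le_card_rng x b
  have hc : (x : ℝ) ≤ (rng n x c).card := by exact_mod_cast le_card_rng x c
  have h6 : 0 ≤ ∑ ω ∈ Fintype.piFinset (rng n x), F ω := by
    refine sum_nonneg fun ω _ => ?_
    rw [hF]
    beta_reduce
    split_ifs <;> norm_num
  unfold Om
  refine le_trans ?_ h5
  have hx0 : (0 : ℝ) ≤ x := Nat.cast_nonneg x
  generalize ∑ ω ∈ Fintype.piFinset (rng n x), F ω = S at h6
  generalize ((rng n x a).card : ℝ) = A at ha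
  generalize ((rng n x b).card : ℝ) = B at hb
  generalize ((rng n x c).card : ℝ) = C at hc
  calc (x ^ 3 : ℝ) * S = x * (x * (x * S)) := by ring
    _ ≤ A * (B * (C * S)) := mul_le_mul ha (mul_le_mul hb (mul_le_mul_of_nonneg_right hc h6)
        (mul_nonneg hx0 h6) (hx0.trans hb)) (mul_nonneg hx0 (mul_nonneg hx0 h6)) (hx0.trans ha)

/-- the vertex of the triangle in the part `d` -/
def fv (f : Tri n) (d : Fin 3) : Fin 3 × Fin n := (d, ![f.1, f.2.1, f.2.2] d)

theorem lab_eq (ω : Fin 3 × Fin n → ℝ) (f : Tri n) : lab ω f = ∑ d, lam ω (fv f d) := by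
  have e0 : fv f 0 = (0, f.1) := rfl
  have e1 : fv f 1 = (1, f.2.1) := rfl
  have e2 : fv f 2 = (2, f.2.2) := rfl
  rw [Fin.sum_univ_three, e0, e1, e2]
  unfold lab lam
  rw [if_neg (show ¬ ((0, f.1) : Fin 3 × Fin n).1 = 1 from by
      show ¬ (0 : Fin 3) = 1; decide), if_pos rfl,
    if_neg (show ¬ ((2, f.2.2) : Fin 3 × Fin n).1 = 1 from by
      show ¬ (2 : Fin 3) = 1; decide)]
  ring

theorem lam_update_of_ne {ω : Fin 3 × Fin n → ℝ} {p q : Fin 3 × Fin n} (hq : q ≠ p) (z : ℝ)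
    [DecidableEq (Fin 3 × Fin n)] : lam (Function.update ω p z) q = lam ω q := by
  unfold lam
  rw [Function.update_of_ne hq]

theorem lab_update_of_notMem {ω : Fin 3 × Fin n → ℝ} {f : Tri n} {p : Fin 3 × Fin n}
    (hp : ∀ d, fv f d ≠ p) (z : ℝ) [DecidableEq (Fin 3 × Fin n)] :
    lab (Function.update ω p z) f = lab ω f := by
  rw [lab_eq, lab_eq]
  exact sum_congr rfl fun d _ => lam_update_of_ne (hp d) z

theorem lab_update_inj {ω : Fin 3 × Fin n → ℝ} {f : Tri n} {d : Fin 3} {z z' : ℝ}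
    [DecidableEq (Fin 3 × Fin n)]
    (h : lab (Function.update ω (fv f d) z) f = 0)
    (h' : lab (Function.update ω (fv f d) z') f = 0) : z = z' := by
  rw [lab_eq, ← add_sum_erase univ _ (mem_univ d)] at h h'
  have e : ∀ z : ℝ, ∑ c ∈ univ.erase d, lam (Function.update ω (fv f d) z) (fv f c) =
      ∑ c ∈ univ.erase d, lam ω (fv f c) := by
    intro z
    refine sum_congr rfl fun c hc => lam_update_of_ne (fun hh => ?_) z
    exact (mem_erase.1 hc).1 (Prod.mk.inj hh).1
  rw [e] at h h'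
  unfold lam at h h'
  rw [Function.update_self] at h h'
  split_ifs at h h' <;> linarith

/-- `v` is a vertex of the support of `L` -/
def VL (L : Edge n → ℝ) (v : Fin 3 × Fin n) : Prop := ∃ p, co L v p ≠ 0

open Classical in
/-- the exceptional triangles: all vertices belong to the support, which has at most two vertices in
each part -/
def Exc (L : Edge n → ℝ) (f : Tri n) : Prop :=
  (∀ d, VL L (fv f d)) ∧ ∀ d, #(univ.filter fun a : Fin n => VL L (d, a)) ≤ 2

open Classical in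
theorem card_exc (L : Edge n → ℝ) : #(univ.filter fun f : Tri n => Exc L f) ≤ 8 := by
  by_cases h : ∀ d, #(univ.filter fun a : Fin n => VL L (d, a)) ≤ 2
  · have h1 : (univ.filter fun f : Tri n => Exc L f) ⊆
        (univ.filter fun a : Fin n => VL L (0, a)) ×ˢ ((univ.filter fun a : Fin n => VL L (1, a)) ×ˢ
        (univ.filter fun a : Fin n => VL L (2, a))) := by
      intro f hf
      have h2 := (mem_filter.1 hf).2.1
      simp only [mem_product, mem_filter, mem_univ, true_and]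
      exact ⟨h2 0, h2 1, h2 2⟩
    refine (card_le_card h1).trans ?_
    rw [card_product, card_product]
    calc _ ≤ 2 * (2 * 2) := Nat.mul_le_mul (h 0) (Nat.mul_le_mul (h 1) (h 2))
      _ = 8 := by norm_num
  · have : (univ.filter fun f : Tri n => Exc L f) = ∅ := by
      apply filter_false_of_mem
      intro f _ hf
      exact h hf.2
    rw [this]
    simp

/-- the case of four vertices outside of the triangle -/
theorem tri_prob_A {x : ℕ} {L : Edge n → ℝ} {f : Tri n} {v' p' p v : Fin 3 × Fin n}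
    (hv' : co L v' p' ≠ 0) (hv : co L v p ≠ 0) (hne : v' ≠ p) (h0 : co L v' p = 0)
    (hp' : ∀ d, fv f d ≠ p') (hp : ∀ d, fv f d ≠ p) [DecidablePred fun ω => lab ω f = 0 ∧ Bad ω L] :
    (x ^ 3 : ℝ) * ∑ ω ∈ Om n x, (if lab ω f = 0 ∧ Bad ω L then (1 : ℝ) else 0) ≤
      (Om n x).card := by
  refine resample3 (fv f 0) p' p (fun ω => lab ω f = 0 ∧ Bad ω L) ?_
  rintro ω t y z t' y' z' ⟨h1, h2⟩ ⟨h1', h2'⟩
  rw [lab_update_of_notMem hp, lab_update_of_notMem hp'] at h1 h1'
  have ht := lab_update_inj h1 h1'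
  subst ht
  have a1 := cnd_update hne h0 (cnd_of_bad h2 v')
  have b1 := cnd_update hne h0 (cnd_of_bad h2' v')
  have hy := cnd_inj hv' a1 b1
  subst hy
  exact ⟨rfl, rfl, cnd_inj hv (cnd_of_bad h2 v) (cnd_of_bad h2' v)⟩

/-- a vertex of the triangle is not in the support -/
theorem tri_prob_B {x : ℕ} {L : Edge n → ℝ} {f : Tri n} {v' p' p v : Fin 3 × Fin n}
    (hv' : co L v' p' ≠ 0) (hv : co L v p ≠ 0) (hne : v' ≠ p) (h0 : co L v' p = 0)
    {d : Fin 3} (hd : ¬ VL L (fv f d)) [DecidablePred fun ω => lab ω f = 0 ∧ Bad ω L] :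
    (x ^ 3 : ℝ) * ∑ ω ∈ Om n x, (if lab ω f = 0 ∧ Bad ω L then (1 : ℝ) else 0) ≤
      (Om n x).card := by
  refine resample3 p' p (fv f d) (fun ω => lab ω f = 0 ∧ Bad ω L) ?_
  rintro ω t y z t' y' z' ⟨h1, h2⟩ ⟨h1', h2'⟩
  have hw : ∀ u, co L u (fv f d) = 0 := by
    intro u
    by_contra h
    exact hd ⟨u, by rw [co_symm]; exact h⟩
  have hv'w : v' ≠ fv f d := by
    rintro rfl
    exact hd ⟨_, hv'⟩
  have hvw : v ≠ fv f d := by
    rintro rfl
    exact hd ⟨_, hv⟩
  have a1 := cnd_update hne h0 (cnd_update hv'w (hw v') (cnd_of_bad h2 v'))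
  have b1 := cnd_update hne h0 (cnd_update hv'w (hw v') (cnd_of_bad h2' v'))
  have ht := cnd_inj hv' a1 b1
  subst ht
  have a2 := cnd_update hvw (hw v) (cnd_of_bad h2 v)
  have b2 := cnd_update hvw (hw v) (cnd_of_bad h2' v)
  have hy := cnd_inj hv a2 b2
  subst hy
  exact ⟨rfl, rfl, lab_update_inj h1 h1'⟩

/-- a vertex all of whose neighbours belong to the triangle -/
theorem cls_eq {L : Edge n → ℝ} {ω : Fin 3 × Fin n → ℝ} {a g h : Fin 3 × Fin n}
    (hc : Cnd ω L a) (ha : VL L a) (hN : ∀ q, co L a q ≠ 0 → q = g ∨ q = h) (hgh : g ≠ h) :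
    cls ω a g = cls ω a h := by
  classical
  by_contra hne
  have h1 : ∀ q, q ≠ g ∧ q ≠ h → co L a q = 0 := by
    intro q hq
    by_contra h0
    rcases hN q h0 with h2 | h2
    · exact hq.1 h2
    · exact hq.2 h2
  have key : ∀ t, (if cls ω a g = t then sg a g * co L a g else 0) +
      (if cls ω a h = t then sg a h * co L a h else 0) = 0 := by
    intro t
    have h2 := hc t
    rwa [sum_eq_add g h hgh (fun q _ hq => by rw [h1 q hq, mul_zero, ite_self])
      (fun h => absurd (mem_univ _) h) (fun h => absurd (mem_univ _) h)] at h2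
  have k1 := key (cls ω a g)
  have k2 := key (cls ω a h)
  rw [if_pos rfl, if_neg (fun h => hne h.symm), add_zero] at k1
  rw [if_pos rfl, if_neg hne, zero_add] at k2
  have g0 : co L a g = 0 := (mul_eq_zero.1 k1).resolve_left (sg_ne _ _)
  have h0 : co L a h = 0 := (mul_eq_zero.1 k2).resolve_left (sg_ne _ _)
  obtain ⟨q, hq⟩ := ha
  rcases hN q hq with rfl | rfl
  · exact hq g0
  · exact hq h0

/-- two vertices of the same part outside of the triangle whose neighbours belong to the triangle -/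
theorem tri_prob_C {x : ℕ} {L : Edge n → ℝ} {f : Tri n} {d : Fin 3} {a a' : Fin n}
    (haa : a ≠ a') (ha : VL L (d, a)) (ha' : VL L (d, a')) (hfa : fv f d ≠ (d, a))
    (hfa' : fv f d ≠ (d, a')) (hN : ∀ q, co L (d, a) q ≠ 0 → ∃ c, fv f c = q)
    (hN' : ∀ q, co L (d, a') q ≠ 0 → ∃ c, fv f c = q)
    [DecidablePred fun ω => lab ω f = 0 ∧ Bad ω L] :
    (x ^ 3 : ℝ) * ∑ ω ∈ Om n x, (if lab ω f = 0 ∧ Bad ω L then (1 : ℝ) else 0) ≤
      (Om n x).card := by
  have hpart : ∀ c : Fin 3, c = d ∨ c = d + 1 ∨ c = d + 2 := by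
    intro c
    fin_cases d <;> fin_cases c <;> simp
  have hd1 : d + 1 ≠ d := by fin_cases d <;> simp
  have hd2 : d + 2 ≠ d := by fin_cases d <;> simp
  have hd12 : d + 2 ≠ d + 1 := by fin_cases d <;> simp
  have hfv : ∀ c c' : Fin 3, c ≠ c' → ∀ b : Fin n, fv f c ≠ (c', b) := by
    intro c c' h b h'
    exact h (Prod.mk.inj h').1
  have hne_fv : ∀ c c' : Fin 3, c ≠ c' → fv f c ≠ fv f c' := fun c c' h h' =>
    h (Prod.mk.inj h').1
  -- neighbours
  have hnb : ∀ b : Fin n, (∀ q, co L (d, b) q ≠ 0 → ∃ c, fv f c = q) →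
      ∀ q, co L (d, b) q ≠ 0 → q = fv f (d + 1) ∨ q = fv f (d + 2) := by
    intro b hb q hq
    obtain ⟨c, rfl⟩ := hb q hq
    have h1 := part_ne_of_co hq
    rcases hpart c with rfl | rfl | rfl
    · exact absurd rfl h1
    · exact Or.inl rfl
    · exact Or.inr rfl
  have hval : ∀ (ω : Fin 3 × Fin n → ℝ) (b : Fin n), VL L (d, b) →
      (∀ q, co L (d, b) q ≠ 0 → ∃ c, fv f c = q) → Bad ω L →
      lam ω (d, b) = -lam ω (fv f (d + 1)) - lam ω (fv f (d + 2)) := by
    intro ω b hb hNb hbad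
    have h1 := cls_eq (cnd_of_bad hbad (d, b)) hb (hnb b hNb) (hne_fv _ _ hd12.symm)
    unfold cls at h1
    rw [if_pos (show (fv f (d + 1)).1 = ((d, b) : Fin 3 × Fin n).1 + 1 from rfl),
      if_neg (show ¬ (fv f (d + 2)).1 = ((d, b) : Fin 3 × Fin n).1 + 1 from hd12)] at h1
    linarith
  refine resample3 (fv f d) (d, a) (d, a') (fun ω => lab ω f = 0 ∧ Bad ω L) ?_
  rintro ω t y z t' y' z' ⟨h1, h2⟩ ⟨h1', h2'⟩
  have hfc : ∀ c : Fin 3, fv f c ≠ (d, a) := by
    intro c
    by_cases hcd : c = d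
    · rw [hcd]; exact hfa
    · exact hfv c d hcd a
  have hfc' : ∀ c : Fin 3, fv f c ≠ (d, a') := by
    intro c
    by_cases hcd : c = d
    · rw [hcd]; exact hfa'
    · exact hfv c d hcd a'
  rw [lab_update_of_notMem hfc', lab_update_of_notMem hfc] at h1 h1'
  have ht := lab_update_inj h1 h1'
  subst ht
  have haa' : ((d, a) : Fin 3 × Fin n) ≠ (d, a') := fun h => haa (Prod.mk.inj h).2
  have e1 := hval _ a ha hN h2
  have e1' := hval _ a ha hN h2'
  rw [lam_update_of_ne (hfc' _), lam_update_of_ne (hfc _), lam_update_of_ne (hfc' _),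
    lam_update_of_ne (hfc _), lam_update_of_ne haa'] at e1 e1'
  have hlinj : ∀ (ω : Fin 3 × Fin n → ℝ) (p : Fin 3 × Fin n) (r r' : ℝ),
      lam (Function.update ω p r) p = lam (Function.update ω p r') p → r = r' := by
    intro ω p r r' h
    unfold lam at h
    rw [Function.update_self, Function.update_self] at h
    split_ifs at h <;> linarith
  have hy := hlinj _ _ _ _ (e1.trans e1'.symm)
  subst hy
  have e2 := hval _ a' ha' hN' h2
  have e2' := hval _ a' ha' hN' h2'
  rw [lam_update_of_ne (hfc' _), lam_update_of_ne (hfc' _)] at e2 e2'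
  exact ⟨rfl, rfl, hlinj _ _ _ _ (e2.trans e2'.symm)⟩

theorem tri_prob {x : ℕ} {L : Edge n → ℝ} (hNS : NS L) {f : Tri n} (hf : ¬ Exc L f)
    [DecidablePred fun ω => lab ω f = 0 ∧ Bad ω L] :
    (x ^ 3 : ℝ) * ∑ ω ∈ Om n x, (if lab ω f = 0 ∧ Bad ω L then (1 : ℝ) else 0) ≤
      (Om n x).card := by
  classical
  by_cases hc : ∀ p q p' q', co L p p' ≠ 0 → co L q q' ≠ 0 → p ≠ q → co L p q ≠ 0
  · have h1 : ∀ ω ∈ Om n x, (if lab ω f = 0 ∧ Bad ω L then (1 : ℝ) else 0) = 0 := by
      intro ω _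
      rw [if_neg]
      rintro ⟨-, hb⟩
      exact not_bad_of_complete hNS (cnd_of_bad hb) hc
    rw [sum_congr rfl h1, sum_const_zero, mul_zero]
    positivity
  by_cases hd : ∃ d, ¬ VL L (fv f d)
  · obtain ⟨d, hd⟩ := hd
    push Not at hc
    obtain ⟨v', p, p', v, hv', hp, hne, h0⟩ := hc
    exact tri_prob_B hv' (by rw [co_symm]; exact hp) hne h0 hd
  push Not at hd
  obtain ⟨d, hd3⟩ : ∃ d, 2 < #(univ.filter fun a : Fin n => VL L (d, a)) := by
    by_contra! h
    exact hf ⟨hd, h⟩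
  -- two further vertices
  obtain ⟨a, ha, a', ha', haa⟩ : ∃ a, (VL L (d, a) ∧ fv f d ≠ (d, a)) ∧
      ∃ a', (VL L (d, a') ∧ fv f d ≠ (d, a')) ∧ a ≠ a' := by
    have h1 : 1 < #((univ.filter fun a : Fin n => VL L (d, a)).erase (fv f d).2) := by
      have := pred_card_le_card_erase (s := univ.filter fun a : Fin n => VL L (d, a))
        (a := (fv f d).2)
      omega
    obtain ⟨a, ha, a', ha', hne⟩ := one_lt_card.1 h1
    rw [mem_erase, mem_filter] at ha ha'
    refine ⟨a, ⟨ha.2.2, fun h => ha.1 ?_⟩, a', ⟨ha'.2.2, fun h => ha'.1 ?_⟩, hne⟩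
    · rw [h]
    · rw [h]
  have hpart : ∀ b b' : Fin n, co L (d, b) (d, b') = 0 := by
    intro b b'
    by_contra h
    exact part_ne_of_co h rfl
  have hfv : ∀ b : Fin n, fv f d ≠ (d, b) → ∀ c, fv f c ≠ (d, b) := by
    intro b hb c h
    have : c = d := (Prod.mk.inj h).1
    subst this
    exact hb h
  have hne' : ((d, a) : Fin 3 × Fin n) ≠ (d, a') := fun h => haa (Prod.mk.inj h).2
  by_cases hN : ∀ q, co L (d, a) q ≠ 0 → ∃ c, fv f c = q
  · by_cases hN' : ∀ q, co L (d, a') q ≠ 0 → ∃ c, fv f c = q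
    · exact tri_prob_C haa ha.1 ha'.1 ha.2 ha'.2 hN hN'
    · push Not at hN'
      obtain ⟨q, hq, hqf⟩ := hN'
      obtain ⟨r, hr⟩ := ha.1
      exact tri_prob_A (v' := (d, a')) (p' := q) (p := (d, a)) (v := r) hq
        (by rw [co_symm]; exact hr) hne'.symm (hpart _ _) hqf (hfv a ha.2)
  · push Not at hN
    obtain ⟨q, hq, hqf⟩ := hN
    obtain ⟨r, hr⟩ := ha'.1
    exact tri_prob_A (v' := (d, a)) (p' := q) (p := (d, a')) (v := r) hq
      (by rw [co_symm]; exact hr) hne' (hpart _ _) hqf (hfv a' ha'.2)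

end Pool.Agent.H692.RT
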