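import Mathlib
import Pool.Agent.H692.RT.Tri1
import Pool.Agent.H692.RT.Cut
import Pool.Agent.H692.FR.Main

/-!
# Triangles: counting
-/

set_option autoImplicit false
set_option linter.unusedSectionVars false

namespace Pool.Agent.H692.RT

open Finset Filter Topology
open Pool.Agent.N575.LDT (Edge Tri Wts wt pot)
open Pool.Agent.H692.FR (On ind NS Bad lab qw co)

variable {n : ℕ}

/-- the edges of a triangle -/
def ed (f : Tri n) : Finset (Edge n) := {(0, f.1, f.2.1), (1, f.2.1, f.2.2), (2, f.1, f.2.2)}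

theorem mem_ed {e : Edge n} {f : Tri n} : e ∈ ed f ↔ On e f := by
  unfold ed On
  simp

theorem ind_apply (f : Tri n) (e : Edge n) : ind f e = if e ∈ ed f then 1 else 0 := by
  unfold ind
  by_cases h : On e f
  · rw [if_pos h, if_pos (mem_ed.2 h)]
  · rw [if_neg h, if_neg (fun h' => h (mem_ed.1 h'))]

theorem card_ed (e : Edge n) : #(univ.filter fun f : Tri n => e ∈ ed f) ≤ n := by
  have h1 : #(univ.filter fun f : Tri n => e ∈ ed f) ≤ #(univ : Finset (Fin n)) := by
    refine card_le_card_of_injOn (fun f => if e.1 = 0 then f.2.2 else if e.1 = 1 then f.1 else f.2.1)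
      (fun _ _ => mem_coe.2 (mem_univ _)) ?_
    rintro ⟨i, j, k⟩ hf ⟨i', j', k'⟩ hf' h
    have h1 := mem_ed.1 (mem_filter.1 (mem_coe.1 hf)).2
    have h2 := mem_ed.1 (mem_filter.1 (mem_coe.1 hf')).2
    obtain ⟨c, a, b⟩ := e
    unfold On at h1 h2
    simp only [Prod.mk.injEq] at h1 h2 h ⊢
    fin_cases c
    · simp at h1 h2 h
      exact ⟨h1.1.symm.trans h2.1, h1.2.symm.trans h2.2, h⟩
    · simp at h1 h2 h
      exact ⟨h, h1.1.symm.trans h2.1, h1.2.symm.trans h2.2⟩
    · simp at h1 h2 h
      exact ⟨h1.1.symm.trans h2.1, h, h1.2.symm.trans h2.2⟩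
  simpa using h1

/-- the support -/
noncomputable def spt (L : Edge n → ℝ) : Finset (Edge n) := by
  classical exact univ.filter fun e => L e ≠ 0

theorem mem_spt {L : Edge n → ℝ} {e : Edge n} : e ∈ spt L ↔ L e ≠ 0 := by
  unfold spt
  simp

open Classical in
/-- the sum over the triangles of the number of the orders for which the first edge belongs to the
triangle -/
theorem sum_first {L : Edge n → ℝ} (hL : L ≠ 0) :
    ∑ f : Tri n, (#(univ.filter fun π : Equiv.Perm (Edge n) => ∃ e ∈ ed f, Fst π (spt L) e) : ℝ) ≤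
      n * (Fintype.card (Equiv.Perm (Edge n)) : ℝ) := by
  have hne : (spt L).Nonempty := by
    by_contra h
    rw [not_nonempty_iff_eq_empty] at h
    apply hL
    funext e
    by_contra he
    have := mem_spt.2 he
    rw [h] at this
    exact absurd this (notMem_empty _)
  have h1 : ∑ f : Tri n, #(univ.filter fun π : Equiv.Perm (Edge n) =>
      ∃ e ∈ ed f, Fst π (spt L) e) =
      ∑ π : Equiv.Perm (Edge n), #(univ.filter fun f : Tri n => ∃ e ∈ ed f, Fst π (spt L) e) := by
    simp only [card_filter]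
    rw [sum_comm]
  have h2 : ∀ π : Equiv.Perm (Edge n),
      #(univ.filter fun f : Tri n => ∃ e ∈ ed f, Fst π (spt L) e) ≤ n := by
    intro π
    obtain ⟨e₀, he₀⟩ := exists_fst π hne
    refine le_trans (card_le_card ?_) (card_ed e₀)
    intro f hf
    obtain ⟨-, e, he, hF⟩ := mem_filter.1 hf
    rw [mem_filter]
    rw [fst_unique he₀ hF]
    exact ⟨mem_univ _, he⟩
  have h3 : ∑ f : Tri n, #(univ.filter fun π : Equiv.Perm (Edge n) =>
      ∃ e ∈ ed f, Fst π (spt L) e) ≤ Fintype.card (Equiv.Perm (Edge n)) * n := by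
    rw [h1]
    refine (sum_le_sum fun π _ => h2 π).trans ?_
    rw [sum_const, card_univ, smul_eq_mul]
  rw [mul_comm]
  exact_mod_cast h3

/-- labels and orders -/
abbrev TTh (n x : ℕ) : Type := (FR.Om n x) × Equiv.Perm (Edge n)

open Classical in
/-- the pairs of labels and orders, and tight triangles -/
noncomputable def TZ (n x : ℕ) : Finset (TTh n x × Tri n) :=
  univ.filter fun p => lab p.1.1.1 p.2 = 0

theorem card_sub' {x : ℕ} (P : (Fin 3 × Fin n → ℝ) → Prop) [DecidablePred P] :
    (#(univ.filter fun ω : FR.Om n x => P ω.1) : ℝ) =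
      ∑ ω ∈ FR.Om n x, (if P ω then (1 : ℝ) else 0) := by
  rw [← sum_coe_sort (FR.Om n x) (fun ω => if P ω then (1 : ℝ) else 0), sum_boole]

theorem card_TZ {x : ℕ} :
    (2 * x : ℝ) * #(TZ n x) =
      (n : ℝ) ^ 3 * ((FR.Om n x).card * Fintype.card (Equiv.Perm (Edge n)) : ℝ) := by
  classical
  have h1 : #(TZ n x) = ∑ s : Tri n,
      #((univ.filter fun ω : FR.Om n x => lab ω.1 s = 0) ×ˢ
        (univ : Finset (Equiv.Perm (Edge n)))) := by
    rw [← card_sigma]
    refine card_bij' (fun p _ => ⟨p.2, p.1⟩) (fun q _ => (q.2, q.1)) ?_ ?_ ?_ ?_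
    · intro p hp
      unfold TZ at hp
      rw [mem_filter] at hp
      simp [hp.2]
    · rintro ⟨s, ω, π⟩ hq
      unfold TZ
      rw [mem_filter]
      simp only [mem_sigma, mem_univ, true_and, mem_product, mem_filter, and_true] at hq
      exact ⟨mem_univ _, hq⟩
    · intro p _
      rfl
    · intro q _
      rfl
  rw [h1]
  push_cast
  rw [mul_sum]
  have h2 : ∀ s ∈ (univ : Finset (Tri n)), (2 * x : ℝ) *
      (#((univ.filter fun ω : FR.Om n x => lab ω.1 s = 0) ×ˢ
        (univ : Finset (Equiv.Perm (Edge n)))) : ℝ) =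
      (FR.Om n x).card * Fintype.card (Equiv.Perm (Edge n)) := by
    intro s _
    rw [card_product, Nat.cast_mul, card_sub' (fun ω => lab ω s = 0), ← mul_assoc,
      FR.prob_tight x s, card_univ]
  rw [sum_congr rfl h2, sum_const, card_univ, nsmul_eq_mul]
  have h3 : Fintype.card (Tri n) = n ^ 3 := by
    show Fintype.card (Fin n × Fin n × Fin n) = n ^ 3
    rw [Fintype.card_prod, Fintype.card_prod, Fintype.card_fin]
    ring
  rw [h3]
  push_cast
  ring

theorem ind_inj {s s' : Tri n} {a : ℝ} (h : ind s = a • ind s') : s = s' := by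
  obtain ⟨i, j, k⟩ := s
  obtain ⟨i', j', k'⟩ := s'
  have h1 := congrFun h (0, i, j)
  have h2 := congrFun h (1, j, k)
  rw [Pi.smul_apply, smul_eq_mul] at h1 h2
  have e1 : ind ((i, j, k) : Tri n) (0, i, j) = 1 := by unfold ind On; simp
  have e2 : ind ((i, j, k) : Tri n) (1, j, k) = 1 := by unfold ind On; simp
  rw [e1] at h1
  rw [e2] at h2
  have f1 : On ((0, i, j) : Edge n) (i', j', k') := by
    by_contra hn
    unfold ind at h1
    rw [if_neg hn, mul_zero] at h1
    exact one_ne_zero h1
  have f2 : On ((1, j, k) : Edge n) (i', j', k') := by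
    by_contra hn
    unfold ind at h2
    rw [if_neg hn, mul_zero] at h2
    exact one_ne_zero h2
  unfold On at f1 f2
  simp at f1 f2
  obtain ⟨rfl, rfl⟩ := f1
  obtain ⟨-, rfl⟩ := f2
  rfl

theorem tri_flip_count {x : ℕ} (hx : 0 < x) {L : Edge n → ℝ} (hL : L ≠ 0)
    {Z' : Finset (TTh n x × Tri n)} (hZ : Z' ⊆ TZ n x)
    (h : ∀ p ∈ Z', (∃ a : ℝ, L = a • ind p.2) ∨ (NS L ∧ Bad p.1.1.1 L ∧
      ∃ e ∈ ed p.2, Fst p.1.2 (spt L) e)) :
    (#Z' : ℝ) ≤ (1 / (2 * x) + n / x ^ 3 + 8 / x ^ 2) *
      ((FR.Om n x).card * Fintype.card (Equiv.Perm (Edge n)) : ℝ) := by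
  classical
  have hx' : (0 : ℝ) < x := by exact_mod_cast hx
  set O : ℝ := ((FR.Om n x).card : ℝ) with hO
  set N : ℝ := (Fintype.card (Equiv.Perm (Edge n)) : ℝ) with hN
  have hO0 : 0 ≤ O := Nat.cast_nonneg _
  have hN0 : 0 ≤ N := Nat.cast_nonneg _
  have h1 : #Z' = ∑ s : Tri n, #(Z'.filter fun p => p.2 = s) :=
    card_eq_sum_card_fiberwise fun p _ => mem_coe.2 (mem_univ _)
  set Pf : Tri n → ℝ := fun s =>
    (#(univ.filter fun π : Equiv.Perm (Edge n) => ∃ e ∈ ed s, Fst π (spt L) e) : ℝ) with hPf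
  have hPf0 : ∀ s, 0 ≤ Pf s := fun s => Nat.cast_nonneg _
  have hPfN : ∀ s, Pf s ≤ N := by
    intro s
    rw [hPf, hN, ← card_univ]
    simp only
    exact_mod_cast card_le_card (filter_subset _ _)
  -- one fibre
  have h2 : ∀ s : Tri n, (#(Z'.filter fun p => p.2 = s) : ℝ) ≤
      (if ∃ a : ℝ, L = a • ind s then O / (2 * x) * N else 0) +
      (O / x ^ 3 * Pf s + (if Exc L s then O / x ^ 2 * N else 0)) := by
    intro s
    have hfib : #(Z'.filter fun p => p.2 = s) = #((Z'.filter fun p => p.2 = s).image Prod.fst) := by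
      rw [card_image_of_injOn]
      intro p hp q hq hpq
      have hp' := (mem_filter.1 (mem_coe.1 hp)).2
      have hq' := (mem_filter.1 (mem_coe.1 hq)).2
      exact Prod.ext hpq (hp'.trans hq'.symm)
    have hpos3 : 0 ≤ O / x ^ 3 * Pf s := mul_nonneg (by positivity) (hPf0 s)
    have hpos2 : 0 ≤ O / x ^ 2 * N := by positivity
    by_cases hs : ∃ a : ℝ, L = a • ind s
    · rw [if_pos hs]
      have h3 : (Z'.filter fun p => p.2 = s).image Prod.fst ⊆
          (univ.filter fun ω : FR.Om n x => lab ω.1 s = 0) ×ˢ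
            (univ : Finset (Equiv.Perm (Edge n))) := by
        intro θ hθ
        rw [mem_image] at hθ
        obtain ⟨p, hp, rfl⟩ := hθ
        rw [mem_filter] at hp
        have h4 := hZ hp.1
        unfold TZ at h4
        rw [mem_filter, hp.2] at h4
        rw [mem_product, mem_filter]
        exact ⟨⟨mem_univ _, h4.2⟩, mem_univ _⟩
      have h4 := card_le_card h3
      rw [card_product, card_univ] at h4
      have h5 : (#(univ.filter fun ω : FR.Om n x => lab ω.1 s = 0) : ℝ) = O / (2 * x) := by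
        rw [card_sub' (fun ω => lab ω s = 0), eq_div_iff (by positivity), mul_comm]
        exact FR.prob_tight x s
      rw [hfib]
      have h6 : (#((Z'.filter fun p => p.2 = s).image Prod.fst) : ℝ) ≤
          (#(univ.filter fun ω : FR.Om n x => lab ω.1 s = 0) : ℝ) * N := by
        rw [hN]
        exact_mod_cast h4
      rw [h5] at h6
      refine h6.trans (le_add_of_nonneg_right (add_nonneg hpos3 ?_))
      split_ifs
      · exact hpos2
      · exact le_rfl
    · rw [if_neg hs, zero_add]
      by_cases hNS : NS L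
      swap
      · have h3 : Z'.filter (fun p => p.2 = s) = ∅ := by
          apply filter_false_of_mem
          intro p hp hps
          have h5 := h p hp
          rw [hps] at h5
          exact hNS (h5.resolve_left hs).1
        rw [h3]
        simp only [card_empty, Nat.cast_zero]
        refine add_nonneg hpos3 ?_
        split_ifs
        · exact hpos2
        · exact le_rfl
      have h3 : (Z'.filter fun p => p.2 = s).image Prod.fst ⊆
          (univ.filter fun ω : FR.Om n x => lab ω.1 s = 0 ∧ Bad ω.1 L) ×ˢ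
          (univ.filter fun π : Equiv.Perm (Edge n) => ∃ e ∈ ed s, Fst π (spt L) e) := by
        intro θ hθ
        rw [mem_image] at hθ
        obtain ⟨p, hp, rfl⟩ := hθ
        rw [mem_filter] at hp
        have h4 := hZ hp.1
        unfold TZ at h4
        rw [mem_filter, hp.2] at h4
        have h5 := h p hp.1
        rw [hp.2] at h5
        obtain ⟨-, h6, h7⟩ := h5.resolve_left hs
        rw [mem_product, mem_filter, mem_filter]
        exact ⟨⟨mem_univ _, h4.2, h6⟩, mem_univ _, h7⟩
      have h4 := card_le_card h3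
      rw [card_product] at h4
      have h7 : (#((Z'.filter fun p => p.2 = s).image Prod.fst) : ℝ) ≤
          (#(univ.filter fun ω : FR.Om n x => lab ω.1 s = 0 ∧ Bad ω.1 L) : ℝ) * Pf s := by
        rw [hPf]
        beta_reduce
        exact_mod_cast h4
      rw [hfib]
      by_cases hE : Exc L s
      · rw [if_pos hE]
        have h5 : (#(univ.filter fun ω : FR.Om n x => lab ω.1 s = 0 ∧ Bad ω.1 L) : ℝ) ≤
            O / x ^ 2 := by
          have h8 : (#(univ.filter fun ω : FR.Om n x => lab ω.1 s = 0 ∧ Bad ω.1 L) : ℝ) ≤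
              #(univ.filter fun ω : FR.Om n x => Bad ω.1 L) := by
            exact_mod_cast card_le_card (fun ω hω => by
              rw [mem_filter] at hω ⊢
              exact ⟨hω.1, hω.2.2⟩)
          refine h8.trans ?_
          rw [card_sub' (fun ω => Bad ω L), le_div_iff₀ (by positivity), mul_comm]
          exact FR.prob_bad hNS
        have h9 : (#((Z'.filter fun p => p.2 = s).image Prod.fst) : ℝ) ≤ O / x ^ 2 * N :=
          h7.trans (mul_le_mul h5 (hPfN s) (hPf0 s) (by positivity))
        linarith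
      · rw [if_neg hE, add_zero]
        have h5 : (#(univ.filter fun ω : FR.Om n x => lab ω.1 s = 0 ∧ Bad ω.1 L) : ℝ) ≤
            O / x ^ 3 := by
          rw [card_sub' (fun ω => lab ω s = 0 ∧ Bad ω L), le_div_iff₀ (by positivity), mul_comm]
          exact tri_prob hNS hE
        exact h7.trans (mul_le_mul_of_nonneg_right h5 (hPf0 s))
  have h3 : (#Z' : ℝ) ≤ ∑ s : Tri n,
      ((if ∃ a : ℝ, L = a • ind s then O / (2 * x) * N else 0) +
      (O / x ^ 3 * Pf s + (if Exc L s then O / x ^ 2 * N else 0))) := by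
    rw [h1]
    push_cast
    exact sum_le_sum fun s _ => h2 s
  refine h3.trans ?_
  rw [sum_add_distrib, sum_add_distrib]
  have h4 : ∑ s : Tri n, (if ∃ a : ℝ, L = a • ind s then O / (2 * x) * N else 0) ≤
      O / (2 * x) * N := by
    rw [← sum_filter, sum_const, nsmul_eq_mul]
    have h5 : #(univ.filter fun s : Tri n => ∃ a : ℝ, L = a • ind s) ≤ 1 := by
      rw [card_le_one]
      intro s hs s' hs'
      obtain ⟨a, ha⟩ := (mem_filter.1 hs).2
      obtain ⟨b, hb⟩ := (mem_filter.1 hs').2
      have ha0 : a ≠ 0 := by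
        rintro rfl
        rw [zero_smul] at ha
        exact hL ha
      refine ind_inj (a := a⁻¹ * b) ?_
      rw [mul_smul, ← hb, ha, smul_smul, inv_mul_cancel₀ ha0, one_smul]
    have h6 : (#(univ.filter fun s : Tri n => ∃ a : ℝ, L = a • ind s) : ℝ) ≤ 1 := by
      exact_mod_cast h5
    have h7 : 0 ≤ O / (2 * x) * N := by positivity
    calc _ ≤ 1 * (O / (2 * x) * N) := mul_le_mul_of_nonneg_right h6 h7
      _ = _ := one_mul _
  have h5 : ∑ s : Tri n, O / x ^ 3 * Pf s ≤ O / x ^ 3 * (n * N) := by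
    rw [← mul_sum]
    exact mul_le_mul_of_nonneg_left (sum_first hL) (by positivity)
  have h6 : ∑ s : Tri n, (if Exc L s then O / x ^ 2 * N else 0) ≤ 8 * (O / x ^ 2 * N) := by
    rw [← sum_filter, sum_const, nsmul_eq_mul]
    refine mul_le_mul_of_nonneg_right ?_ (by positivity)
    exact_mod_cast card_exc L
  calc _ ≤ O / (2 * x) * N + (O / x ^ 3 * (n * N) + 8 * (O / x ^ 2 * N)) :=
        add_le_add h4 (add_le_add h5 h6)
    _ = _ := by ring

end Pool.Agent.H692.RT
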