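import Mathlib
import Pool.Agent.H692.RT.Tri2
import Pool.Agent.H692.RT.Main

/-!
# Triangles: randomized trees with two rounds
-/

set_option autoImplicit false
set_option linter.unusedSectionVars false

namespace Pool.Agent.H692.RT

open Finset Filter Topology
open Pool.Agent.N575.LDT (Edge Tri Wts wt pot pot_continuous)
open Pool.Agent.H692.FR (On ind NS Bad lab qw wt_add_smul')
open Pool.Agent.H692.KS (RTree dot ans red Good good dot_add_smul dot_continuous exists_coeff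
  eventually_dot_ne)

variable {n : ℕ}

theorem dot_ind' (f : Tri n) (y : Wts n) : dot (ind f) y = wt y f := FR.dot_ind f y

theorem wt_pot (x : Fin 3 × Fin n → ℝ) (s : Tri n) : wt (pot x) s = 0 := by
  unfold wt pot
  simp

theorem exists_q {F : Set (Wts n)} (hF : F.Finite) (ω : Fin 3 × Fin n → ℝ) :
    ∃ q : Wts n, (∀ s, lab ω s = 0 → wt q s = 0) ∧ (∀ s, lab ω s ≠ 0 → 0 < wt q s) ∧
      ∀ L ∈ F, ¬ Bad ω L → dot L q ≠ 0 := by
  classical
  let e := hF.toFinset.equivFin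
  obtain ⟨y, hy, h1⟩ := FR.exists_pert (fun i => ((e.symm i).1 : Edge n → ℝ)) ω 0
  have h2 : ∀ L ∈ F, ¬ Bad ω L → dot L y ≠ 0 := by
    intro L hL hb
    have h3 := h1 (e ⟨L, hF.mem_toFinset.2 hL⟩)
    rw [e.symm_apply_apply, zero_add] at h3
    exact h3 hb
  have h3 : ∀ᶠ ε in 𝓝[>] (0 : ℝ), ∀ L ∈ F, ¬ Bad ω L → dot L (qw ω + ε • y) ≠ 0 := by
    refine (eventually_all_finite hF).2 fun L hL => ?_
    by_cases hb : Bad ω L
    · exact Eventually.of_forall fun ε h => absurd hb h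
    · filter_upwards [eventually_dot_ne L (qw ω) y (Or.inr (h2 L hL hb))] with ε h _
      exact h
  have h4 := FR.eventually_wt_pos (u := qw ω) (v := y) (fun s => by
    rw [FR.wt_qw]; exact sq_nonneg _)
  obtain ⟨ε, h5, h6⟩ := (h3.and h4).exists
  refine ⟨qw ω + ε • y, fun s hs => ?_, fun s hs => ?_, h5⟩
  · rw [wt_add_smul', FR.wt_qw, hs, hy s hs]
    ring
  · refine h6 s fun h0 => ?_
    rw [FR.wt_qw_eq_zero] at h0
    exact absurd h0 hs

/-- a bad form is not supported by the edges of a triangle, unless it is a multiple of its weight -/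
theorem cut_ne {ω : Fin 3 × Fin n → ℝ} {L : Wts n} (hb : Bad ω L) {f : Tri n}
    (h : ¬ ∃ a : ℝ, L = a • ind f) : cut (ed f) L ≠ 0 := by
  classical
  intro h0
  apply h
  obtain ⟨i, j, k⟩ := f
  have hL0 : ∀ e, e ∉ ed ((i, j, k) : Tri n) → L e = 0 := by
    intro e he
    have := congrFun h0 e
    unfold cut at this
    rw [if_neg he] at this
    exact this
  have hsum : ∀ w : Wts n, dot L w =
      L (0, i, j) * w (0, i, j) + L (1, j, k) * w (1, j, k) + L (2, i, k) * w (2, i, k) := by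
    intro w
    unfold KS.dot
    rw [← sum_subset (subset_univ (ed ((i, j, k) : Tri n)))
      (fun e _ he => by rw [hL0 e he, zero_mul])]
    unfold ed
    rw [sum_insert (by simp), sum_insert (by simp), sum_singleton]
    ring
  have hpot : ∀ x : Fin 3 × Fin n → ℝ, dot L (pot x) = 0 := fun x =>
    hb (pot x) fun s _ => wt_pot x s
  have h1 := hpot (Pi.single (0, i) 1)
  have h2 := hpot (Pi.single (1, j) 1)
  rw [hsum] at h1 h2
  unfold pot at h1 h2
  simp at h1 h2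
  have e1 : L (1, j, k) = L (0, i, j) := by linarith
  have e2 : L (2, i, k) = L (0, i, j) := by linarith
  refine ⟨L (0, i, j), ?_⟩
  funext e
  rw [Pi.smul_apply, smul_eq_mul, ind_apply]
  by_cases he : e ∈ ed ((i, j, k) : Tri n)
  · rw [if_pos he, mul_one]
    unfold ed at he
    simp only [mem_insert, mem_singleton] at he
    rcases he with rfl | rfl | rfl
    · rfl
    · exact e1
    · exact e2
  · rw [if_neg he, mul_zero]
    exact hL0 e he

theorem wt_ind_self (f : Tri n) : wt (ind f) f = 3 := by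
  unfold wt
  rw [ind_apply, ind_apply, ind_apply]
  unfold ed
  simp
  norm_num

theorem cut_ind_self (f : Tri n) : cut (ed f) (ind f) = 0 := by
  funext e
  unfold cut
  split_ifs with h
  · rfl
  · rw [ind_apply, if_neg h]
    rfl

theorem spt_nonempty {L : Wts n} (h : L ≠ 0) : (spt L).Nonempty := by
  obtain ⟨e, he⟩ := exists_coeff h
  exact ⟨e, mem_spt.2 he⟩

theorem tri_tradeoff {W : Set (Wts n)} (hW : IsOpen W) {y₀ : Fin 3 × Fin n → ℝ}
    (hy₀ : pot y₀ ∈ W) (κ : ℝ) {β : Type} (φ : β → Bool) {Ω : Type} [Fintype Ω]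
    (p : Ω → ℝ) (hp0 : ∀ ρ, 0 ≤ p ρ) (hp1 : ∑ ρ, p ρ = 1)
    (t : Ω → RTree (pot : (Fin 3 × Fin n → ℝ) → Wts n) β) {γ T : ℝ} {x : ℕ} (hx : 1 ≤ x)
    (hno : ∀ w ∈ W, (∀ s, 0 < wt w s) →
      (1 + γ) / 2 ≤ prob p (fun ρ => φ ((t ρ).run w) = false) ∧ (∀ ρ, (t ρ).rounds w ≤ 2) ∧
        ∑ ρ, p ρ * (t ρ).tests w ≤ T)
    (hyes : ∀ w ∈ W, ∀ τ, SignType.sign (wt w τ) = SignType.sign κ →
      (∀ s, s ≠ τ → 0 < wt w s) → (1 + γ) / 2 ≤ prob p (fun ρ => φ ((t ρ).run w) = true)) :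
    γ * (n : ℝ) ^ 3 ≤ (1 + 2 * n / x ^ 2 + 16 / x + 2 * x) * T := by
  classical
  have hx0 : 0 < x := hx
  have hx' : (0 : ℝ) < x := by exact_mod_cast hx
  -- the generic special input
  obtain ⟨x₀, hxW, hgood⟩ : ∃ x₀, pot x₀ ∈ W ∧ ∀ ρ, Good φ (t ρ) x₀ := by
    have hd : Dense {x | ∀ ρ, Good φ (t ρ) x} :=
      dense_of_mem_residual (eventually_all.2 fun ρ => good pot_continuous φ (t ρ))
    obtain ⟨x₀, h1, h2⟩ := hd.inter_open_nonempty (pot ⁻¹' W) (hW.preimage pot_continuous)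
      ⟨y₀, hy₀⟩
    exact ⟨x₀, h1, h2⟩
  let R : Ω → KS.LT (Edge n) := fun ρ => red φ (t ρ) x₀
  have hev : ∀ v : Wts n, ∃ ε : ℝ, 0 < ε ∧ pot x₀ + ε • v ∈ W ∧
      ∀ ρ, (R ρ).Gen v → φ ((t ρ).run (pot x₀ + ε • v)) = (R ρ).run v ∧
      (R ρ).rounds v = (t ρ).rounds (pot x₀ + ε • v) ∧
      (R ρ).tests v = (t ρ).tests (pot x₀ + ε • v) := by
    intro v
    have h1 : ∀ᶠ ε in 𝓝[>] (0 : ℝ), ∀ ρ, (R ρ).Gen v →
        φ ((t ρ).run (pot x₀ + ε • v)) = (R ρ).run v ∧
        (R ρ).rounds v = (t ρ).rounds (pot x₀ + ε • v) ∧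
        (R ρ).tests v = (t ρ).tests (pot x₀ + ε • v) := by
      refine eventually_all.2 fun ρ => ?_
      by_cases hG : (R ρ).Gen v
      · filter_upwards [hgood ρ v hG] with ε h _
        exact h
      · exact Eventually.of_forall fun ε h => absurd h hG
    obtain ⟨ε, ⟨h2, h3⟩, h4⟩ := ((h1.and ((KS.tendsto_line (pot x₀) v).eventually
      (hW.mem_nhds hxW))).and self_mem_nhdsWithin).exists
    exact ⟨ε, h4, h3, h2⟩
  have hvv : ∀ (ε : ℝ) (u : Wts n) (s : Tri n), wt (pot x₀ + ε • u) s = ε * wt u s := by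
    intro ε u s
    rw [wt_add_smul', wt_pot, zero_add]
  -- the forms
  set FL : Set (Wts n) := (⋃ ρ, forms (R ρ)) ∪ Set.range ind with hFL
  have hFLfin : FL.Finite := (Set.finite_iUnion fun ρ => forms_finite (R ρ)).union
    (Set.finite_range _)
  have hmem : ∀ ρ, ∀ L ∈ forms (R ρ), L ∈ FL := fun ρ L hL => Or.inl (Set.mem_iUnion.2 ⟨ρ, hL⟩)
  have hmemf : ∀ s, ind s ∈ FL := fun s => Or.inr ⟨s, rfl⟩
  choose qf hq0 hqpos hqne using fun ω : FR.Om n x => exists_q hFLfin ω.1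
  have hbad : ∀ ω : FR.Om n x, ∀ L ∈ FL, dot L (qf ω) = 0 → Bad ω.1 L := by
    intro ω L hL h
    by_contra hb
    exact hqne ω L hL hb h
  obtain ⟨δ, η, hδ, hη, hbase⟩ := exists_base_cut qf (ed : Tri n → Finset (Edge n)) hFLfin
  set u : TTh n x → Wts n := fun θ => qf θ.1 + η • hv δ θ.2 with hu
  set vf : TTh n x → Tri n → Wts n := fun θ f => qf θ.1 + η • cut (ed f) (hv δ θ.2) with hvf
  have hsp : ∀ L : Wts n, (univ.filter fun e => L e ≠ 0) = spt L := by
    intro L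
    ext e
    rw [mem_spt]
    simp
  have hb1 : ∀ (θ : TTh n x), ∀ L ∈ FL, dot L (qf θ.1) ≠ 0 →
      SignType.sign (dot L (u θ)) = SignType.sign (dot L (qf θ.1)) ∧
      ∀ f, SignType.sign (dot L (vf θ f)) = SignType.sign (dot L (qf θ.1)) :=
    fun θ L hL h => (hbase θ.1 θ.2 L hL).1 h
  have hb2 : ∀ (θ : TTh n x), ∀ L ∈ FL, dot L (qf θ.1) = 0 → ∀ e,
      Fst θ.2 (spt L) e → SignType.sign (dot L (u θ)) = SignType.sign (L e) := by
    intro θ L hL h e he
    have h1 := ((hbase θ.1 θ.2 L hL).2 h).1 e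
    rw [hsp] at h1
    exact h1 he
  have hb3 : ∀ (θ : TTh n x), ∀ L ∈ FL, dot L (qf θ.1) = 0 → ∀ f e,
      Fst θ.2 (spt (cut (ed f) L)) e →
        SignType.sign (dot L (vf θ f)) = SignType.sign (cut (ed f) L e) := by
    intro θ L hL h f e he
    have h1 := ((hbase θ.1 θ.2 L hL).2 h).2 f e
    rw [hsp] at h1
    exact h1 he
  have hune : ∀ (θ : TTh n x), ∀ L ∈ FL, L ≠ 0 → dot L (u θ) ≠ 0 := by
    intro θ L hL h0 h
    by_cases h1 : dot L (qf θ.1) = 0
    · obtain ⟨e, he⟩ := exists_fst θ.2 (spt_nonempty h0)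
      have h2 := hb2 θ L hL h1 e he
      rw [h, sign_zero] at h2
      exact mem_spt.1 he.1 (sign_eq_zero_iff.1 h2.symm)
    · have h2 := (hb1 θ L hL h1).1
      rw [h, sign_zero] at h2
      exact h1 (sign_eq_zero_iff.1 h2.symm)
  have hvne : ∀ (θ : TTh n x) f, ∀ L ∈ FL, (¬ ∃ a : ℝ, L = a • ind f) → dot L (vf θ f) ≠ 0 := by
    intro θ f L hL hne h
    by_cases h1 : dot L (qf θ.1) = 0
    · obtain ⟨e, he⟩ := exists_fst θ.2 (spt_nonempty (cut_ne (hbad θ.1 L hL h1) hne))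
      have h2 := hb3 θ L hL h1 f e he
      rw [h, sign_zero] at h2
      exact mem_spt.1 he.1 (sign_eq_zero_iff.1 h2.symm)
    · have h2 := (hb1 θ L hL h1).2 f
      rw [h, sign_zero] at h2
      exact h1 (sign_eq_zero_iff.1 h2.symm)
  have hindne : ∀ s f : Tri n, s ≠ f → ¬ ∃ a : ℝ, ind s = a • ind f := by
    rintro s f h ⟨a, ha⟩
    exact h (ind_inj ha)
  have hqnn : ∀ (ω : FR.Om n x) s, dot (ind s) (qf ω) ≠ 0 → 0 < wt (qf ω) s := by
    intro ω s h
    rw [dot_ind'] at h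
    by_cases hl : lab ω.1 s = 0
    · exact absurd (hq0 ω s hl) h
    · exact hqpos ω s hl
  have hupos : ∀ θ s, 0 < wt (u θ) s := by
    intro θ s
    rw [← sign_eq_one_iff, ← dot_ind']
    by_cases h1 : dot (ind s) (qf θ.1) = 0
    · obtain ⟨e, he⟩ := exists_fst θ.2 (spt_nonempty (FR.ind_ne s))
      rw [hb2 θ _ (hmemf s) h1 e he]
      have h2 := mem_spt.1 he.1
      rw [ind_apply] at h2 ⊢
      split_ifs at h2 ⊢ with h3
      · exact sign_one
      · exact absurd rfl h2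
    · rw [(hb1 θ _ (hmemf s) h1).1, dot_ind', sign_eq_one_iff]
      exact hqnn θ.1 s h1
  have hvpos : ∀ θ f s, s ≠ f → 0 < wt (vf θ f) s := by
    intro θ f s hs
    rw [← sign_eq_one_iff, ← dot_ind']
    by_cases h1 : dot (ind s) (qf θ.1) = 0
    · obtain ⟨e, he⟩ := exists_fst θ.2
        (spt_nonempty (cut_ne (hbad θ.1 _ (hmemf s) h1) (hindne s f hs)))
      rw [hb3 θ _ (hmemf s) h1 f e he]
      have h2 := mem_spt.1 he.1
      unfold cut at h2 ⊢
      rw [ind_apply] at h2 ⊢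
      split_ifs at h2 ⊢ with h3 h4
      · exact absurd rfl h2
      · exact sign_one
      · exact absurd rfl h2
    · rw [(hb1 θ _ (hmemf s) h1).2 f, dot_ind', sign_eq_one_iff]
      exact hqnn θ.1 s h1
  have hveq : ∀ q ∈ TZ n x, wt (vf q.1 q.2) q.2 = 0 := by
    intro q hq
    unfold TZ at hq
    have h1 := hq0 q.1.1 q.2 (mem_filter.1 hq).2
    rw [hvf]
    simp only
    rw [wt_add_smul', h1, ← dot_ind' q.2 (cut (ed q.2) (hv δ q.1.2)), dot_cut, cut_ind_self]
    unfold KS.dot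
    simp
  obtain ⟨ε, hε1, hε⟩ : ∃ ε : ℝ, (∀ (θ : TTh n x) f, ∀ L ∈ FL, (¬ ∃ a : ℝ, L = a • ind f) →
      SignType.sign (dot L (vf θ f + ε • ind f)) = SignType.sign (dot L (vf θ f)) ∧
      SignType.sign (dot L (vf θ f + ε • (κ • ind f))) = SignType.sign (dot L (vf θ f))) ∧
      0 < ε := by
    have h1 : ∀ᶠ ε in 𝓝[>] (0 : ℝ), ∀ (θ : TTh n x) f, ∀ L ∈ FL,
        (¬ ∃ a : ℝ, L = a • ind f) →
        SignType.sign (dot L (vf θ f + ε • ind f)) = SignType.sign (dot L (vf θ f)) ∧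
        SignType.sign (dot L (vf θ f + ε • (κ • ind f))) = SignType.sign (dot L (vf θ f)) := by
      refine eventually_all.2 fun θ => eventually_all.2 fun f => (eventually_all_finite hFLfin).2
        fun L hL => ?_
      by_cases h : ∃ a : ℝ, L = a • ind f
      · exact Eventually.of_forall fun ε h' => absurd h h'
      · filter_upwards [eventually_sign L (vf θ f) (ind f) (hvne θ f L hL h),
          eventually_sign L (vf θ f) (κ • ind f) (hvne θ f L hL h)] with ε h2 h3 _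
        exact ⟨h2, h3⟩
    obtain ⟨ε, h2, h3⟩ := (h1.and self_mem_nhdsWithin).exists
    exact ⟨ε, h2, h3⟩
  set y : TTh n x → Tri n → Wts n := fun θ f => vf θ f + ε • ind f with hy
  set z : TTh n x → Tri n → Wts n := fun θ f => vf θ f + ε • (κ • ind f) with hz
  have hyself : ∀ q ∈ TZ n x, wt (y q.1 q.2) q.2 = ε * 3 := by
    intro q hq
    rw [hy]
    simp only
    rw [wt_add_smul', hveq q hq, wt_ind_self, zero_add]
  have hzself : ∀ q ∈ TZ n x, wt (z q.1 q.2) q.2 = ε * (κ * 3) := by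
    intro q hq
    rw [hz]
    simp only
    have : wt (κ • ind q.2) q.2 = κ * 3 := by
      rw [← dot_ind', ← zero_add (κ • ind q.2), dot_add_smul, dot_ind', dot_ind', wt_ind_self]
      unfold wt
      simp
    rw [wt_add_smul', hveq q hq, this, zero_add]
  have hypos : ∀ q ∈ TZ n x, ∀ s, 0 < wt (y q.1 q.2) s := by
    intro q hq s
    by_cases hs : s = q.2
    · rw [hs, hyself q hq]
      positivity
    · rw [← sign_eq_one_iff, ← dot_ind', (hε1 q.1 q.2 _ (hmemf s) (hindne s q.2 hs)).1, dot_ind',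
        sign_eq_one_iff]
      exact hvpos q.1 q.2 s hs
  have hzpos : ∀ q : TTh n x × Tri n, ∀ s, s ≠ q.2 → 0 < wt (z q.1 q.2) s := by
    intro q s hs
    rw [← sign_eq_one_iff, ← dot_ind', (hε1 q.1 q.2 _ (hmemf s) (hindne s q.2 hs)).2, dot_ind',
        sign_eq_one_iff]
    exact hvpos q.1 q.2 s hs
  have hyne : ∀ q ∈ TZ n x, ∀ L ∈ FL, L ≠ 0 → dot L (y q.1 q.2) ≠ 0 := by
    intro q hq L hL h0
    by_cases h : ∃ a : ℝ, L = a • ind q.2
    · obtain ⟨a, rfl⟩ := h
      have ha : a ≠ 0 := by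
        rintro rfl
        rw [zero_smul] at h0
        exact h0 rfl
      have h1 : dot (a • ind q.2) (y q.1 q.2) = a * wt (y q.1 q.2) q.2 := by
        rw [← dot_ind']
        unfold KS.dot
        rw [mul_sum]
        exact sum_congr rfl fun e _ => by rw [Pi.smul_apply, smul_eq_mul]; ring
      rw [h1, hyself q hq]
      exact mul_ne_zero ha (by positivity)
    · intro h1
      have h2 := (hε1 q.1 q.2 L hL h).1
      have h1' : dot L (vf q.1 q.2 + ε • ind q.2) = 0 := h1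
      rw [h1', sign_zero] at h2
      exact hvne q.1 q.2 L hL h (sign_eq_zero_iff.1 h2.symm)
  have hzne : ∀ q : TTh n x × Tri n, ∀ L ∈ FL, (¬ ∃ a : ℝ, L = a • ind q.2) →
      dot L (z q.1 q.2) ≠ 0 := by
    intro q L hL h h1
    have h2 := (hε1 q.1 q.2 L hL h).2
    have h1' : dot L (vf q.1 q.2 + ε • (κ • ind q.2)) = 0 := h1
    rw [h1', sign_zero] at h2
    exact hvne q.1 q.2 L hL h (sign_eq_zero_iff.1 h2.symm)
  -- no-instances
  have hA : ∀ v : Wts n, (∀ s, 0 < wt v s) → (∀ L ∈ FL, L ≠ 0 → dot L v ≠ 0) →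
      (1 + γ) / 2 ≤ prob p (fun ρ => (R ρ).run v = false) ∧ (∀ ρ, (R ρ).rounds v ≤ 2) ∧
        ∑ ρ, p ρ * (R ρ).tests v ≤ T := by
    intro v hvp hvF
    obtain ⟨ε', hε', h1, h2⟩ := hev v
    have hG : ∀ ρ, (R ρ).Gen v := fun ρ => gen_of _ fun L hL h0 => hvF L (hmem ρ L hL) h0
    have h3 := hno _ h1 (fun s => by
        rw [hvv]
        exact mul_pos hε' (hvp s))
    have e1 : (fun ρ => (R ρ).run v = false) =
        fun ρ => φ ((t ρ).run (pot x₀ + ε' • v)) = false := by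
      funext ρ
      rw [(h2 ρ (hG ρ)).1]
    refine ⟨by rw [e1]; exact h3.1, fun ρ => ?_, ?_⟩
    · rw [(h2 ρ (hG ρ)).2.1]
      exact h3.2.1 ρ
    · rw [sum_congr rfl fun ρ _ => by rw [(h2 ρ (hG ρ)).2.2]]
      exact h3.2.2
  have hpair : ∀ q ∈ TZ n x, γ ≤ prob p (fun ρ => ¬ ((R ρ).Gen (z q.1 q.2) ∧
      (R ρ).run (y q.1 q.2) = (R ρ).run (z q.1 q.2))) := by
    intro q hq
    have h1 := (hA _ (hypos q hq) (hyne q hq)).1
    obtain ⟨ε', hε', h2, h3⟩ := hev (z q.1 q.2)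
    have h4 := hyes _ h2 q.2 (by
        rw [hvv, hzself q hq, sign_mul, sign_mul, sign_mul, sign_pos hε', sign_pos hε,
          sign_pos (by norm_num : (0 : ℝ) < 3)]
        simp)
      (fun s hs => by
        rw [hvv]
        exact mul_pos hε' (hzpos q s hs))
    have h5 : ∀ ρ, (if (R ρ).run (y q.1 q.2) = false then p ρ else 0) +
        (if φ ((t ρ).run (pot x₀ + ε' • z q.1 q.2)) = true then p ρ else 0) ≤
        p ρ + (if ¬ ((R ρ).Gen (z q.1 q.2) ∧
      (R ρ).run (y q.1 q.2) = (R ρ).run (z q.1 q.2)) then p ρ else 0) := by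
      intro ρ
      have h0 := hp0 ρ
      by_cases hb : (R ρ).Gen (z q.1 q.2) ∧ (R ρ).run (y q.1 q.2) = (R ρ).run (z q.1 q.2)
      · rw [if_neg (not_not.2 hb), (h3 ρ hb.1).1, hb.2]
        cases (R ρ).run (z q.1 q.2) <;> simp
      · rw [if_pos hb]
        split_ifs <;> linarith
    have h6 := sum_le_sum fun ρ (_ : ρ ∈ (univ : Finset Ω)) => h5 ρ
    rw [sum_add_distrib, sum_add_distrib, hp1] at h6
    rw [prob_eq] at h1 h4
    rw [prob_eq]
    linarith
  -- counting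
  set O : ℝ := ((FR.Om n x).card : ℝ) with hO
  set N : ℝ := (Fintype.card (Equiv.Perm (Edge n)) : ℝ) with hN
  have hO0 : 0 < O := by
    have := card_pos.2 (FR.Om_nonempty (n := n) hx0)
    rw [hO]
    exact_mod_cast this
  have hN0 : 0 < N := by
    rw [hN]
    exact_mod_cast Fintype.card_pos
  set B : ℝ := (1 / (2 * x) + n / x ^ 3 + 8 / x ^ 2) * (O * N) with hB
  have hB0 : 0 ≤ B := by positivity
  obtain ⟨ω₀, hω₀⟩ := FR.Om_nonempty (n := n) hx0
  let θ₀ : TTh n x := (⟨ω₀, hω₀⟩, 1)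
  have hcnt : ∀ ρ, (#((TZ n x).filter fun q => ¬ ((R ρ).Gen (z q.1 q.2) ∧
      (R ρ).run (y q.1 q.2) = (R ρ).run (z q.1 q.2))) : ℝ) ≤
      B * (R ρ).tests (u θ₀) + ∑ θ, ((R ρ).tests (u θ) : ℝ) := by
    intro ρ
    refine two_rounds (F := fun f : Tri n => ind f) (fun f f' a h => ind_inj h) (R ρ) (TZ n x) u
      y z hB0 ?_ ?_ ?_ θ₀ (filter_subset _ _) ?_
    · intro q _ L hL _ hne
      have h1 := hε1 q.1 q.2 L (hmem ρ L hL) hne
      exact ⟨h1.1.trans h1.2.symm, hzne q L (hmem ρ L hL) hne⟩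
    · intro q hq
      exact (hA _ (hypos q hq) (hyne q hq)).2.1 ρ
    · intro L hL h0 Z' hZ' hq
      refine tri_flip_count hx0 h0 hZ' fun q hqZ => ?_
      by_cases hne : ∃ a : ℝ, L = a • ind q.2
      · exact Or.inl hne
      right
      have h1 := (hq q hqZ).resolve_right hne
      have hLF := hmem ρ L hL
      have h1' : SignType.sign (dot L (vf q.1 q.2)) ≠ SignType.sign (dot L (u q.1)) := by
        rw [← (hε1 q.1 q.2 L hLF hne).1]
        exact h1
      have hd : dot L (qf q.1.1) = 0 := by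
        by_contra h
        apply h1'
        rw [(hb1 q.1 L hLF h).1, (hb1 q.1 L hLF h).2 q.2]
      have hbadL := hbad q.1.1 L hLF hd
      obtain ⟨e, he⟩ := exists_fst q.1.2 (spt_nonempty h0)
      obtain ⟨e', he'⟩ := exists_fst q.1.2 (spt_nonempty (cut_ne hbadL hne))
      have hu' := hb2 q.1 L hLF hd e he
      have hv' := hb3 q.1 L hLF hd q.2 e' he'
      have hcut : ∀ d, cut (ed q.2) L d ≠ 0 → cut (ed q.2) L d = L d := by
        intro d hd
        unfold cut at hd ⊢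
        split_ifs at hd ⊢
        · exact absurd rfl hd
        · rfl
      refine ⟨⟨h0, ?_⟩, hbadL, e, ?_, he⟩
      · intro s a ha
        apply h1'
        have hval : ∀ d, L d ≠ 0 → L d = a := by
          intro d hd
          rw [ha, Pi.smul_apply, smul_eq_mul, ind_apply] at hd ⊢
          split_ifs at hd ⊢
          · rw [mul_one]
          · rw [mul_zero] at hd
            exact absurd rfl hd
        have h2 := mem_spt.1 he'.1
        have h3 := hcut e' h2
        rw [hu', hv', h3, hval e (mem_spt.1 he.1), hval e' (by rw [← h3]; exact h2)]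
      · by_contra hee
        apply h1'
        have h2 : cut (ed q.2) L e = L e := by
          unfold cut
          rw [if_neg hee]
        have h3 : Fst q.1.2 (spt (cut (ed q.2) L)) e := by
          refine ⟨mem_spt.2 (by rw [h2]; exact mem_spt.1 he.1), fun d hd => he.2 d ?_⟩
          have h4 := mem_spt.1 hd
          exact mem_spt.2 (by rw [← hcut d h4]; exact h4)
        rw [hu', hb3 q.1 L hLF hd q.2 e h3, h2]
    · intro q hq
      exact (mem_filter.1 hq).2
  have hugen : ∀ θ : TTh n x, ∑ ρ, p ρ * (R ρ).tests (u θ) ≤ T := fun θ =>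
    (hA (u θ) (hupos θ) fun L hL h0 => hune θ L hL h0).2.2
  have hsum : γ * #(TZ n x) ≤ B * T + (O * N) * T := by
    calc γ * #(TZ n x) = ∑ _q ∈ TZ n x, γ := by rw [sum_const, nsmul_eq_mul]; ring
      _ ≤ ∑ q ∈ TZ n x, prob p (fun ρ => ¬ ((R ρ).Gen (z q.1 q.2) ∧
          (R ρ).run (y q.1 q.2) = (R ρ).run (z q.1 q.2))) := sum_le_sum hpair
      _ = ∑ ρ, p ρ * (#((TZ n x).filter fun q => ¬ ((R ρ).Gen (z q.1 q.2) ∧
          (R ρ).run (y q.1 q.2) = (R ρ).run (z q.1 q.2))) : ℝ) := by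
          simp only [prob_eq]
          rw [sum_comm]
          refine sum_congr rfl fun ρ _ => ?_
          rw [← sum_filter, sum_const, nsmul_eq_mul, mul_comm]
      _ ≤ ∑ ρ, p ρ * (B * (R ρ).tests (u θ₀) + ∑ θ, ((R ρ).tests (u θ) : ℝ)) :=
          sum_le_sum fun ρ _ => mul_le_mul_of_nonneg_left (hcnt ρ) (hp0 ρ)
      _ = B * ∑ ρ, p ρ * ((R ρ).tests (u θ₀) : ℝ) +
          ∑ θ, ∑ ρ, p ρ * ((R ρ).tests (u θ) : ℝ) := by
          rw [sum_comm, mul_sum, ← sum_add_distrib]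
          refine sum_congr rfl fun ρ _ => ?_
          rw [mul_add, mul_sum]
          ring
      _ ≤ B * T + ∑ _θ : TTh n x, T :=
          add_le_add (mul_le_mul_of_nonneg_left (hugen θ₀) hB0) (sum_le_sum fun θ _ => hugen θ)
      _ = B * T + (O * N) * T := by
          rw [sum_const, card_univ, nsmul_eq_mul, Fintype.card_prod, Fintype.card_coe]
          push_cast
          rfl
  have hZ := card_TZ (n := n) (x := x)
  have h1 : (2 * x : ℝ) * (γ * #(TZ n x)) ≤ (2 * x : ℝ) * (B * T + (O * N) * T) :=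
    mul_le_mul_of_nonneg_left hsum (by positivity)
  have h2 : (2 * x : ℝ) * (γ * #(TZ n x)) = (γ * (n : ℝ) ^ 3) * (O * N) := by
    calc (2 * x : ℝ) * (γ * #(TZ n x)) = γ * ((2 * x : ℝ) * #(TZ n x)) := by ring
      _ = _ := by rw [hZ]; ring
  have h3 : (2 * x : ℝ) * (B * T + (O * N) * T) =
      ((1 + 2 * n / x ^ 2 + 16 / x + 2 * x) * T) * (O * N) := by
    rw [hB]
    field_simp
    ring
  rw [h2, h3] at h1
  exact le_of_mul_le_mul_right h1 (mul_pos hO0 hN0)

end Pool.Agent.H692.RT
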