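import Mathlib
import Pool.Agent.H692.RT.Tri3
import Pool.Agent.H692.FR.Final

/-!
# Randomized trees with two rounds for triangles: the exponent, shortest paths
-/

set_option autoImplicit false
set_option linter.unusedSectionVars false

namespace Pool.Agent.H692.RT

open Finset Filter Topology
open Pool.Agent.H692.KS (RTree RTree.run RTree.rounds RTree.tests)
open Pool.Agent.N575.LDT (Edge Tri Wts wt pot pot_continuous)
open Pool.Agent.N575.PCT (lengths Near hc)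

variable {n : ℕ}

theorem tri_headline {W : Set (Wts n)} (hW : IsOpen W) {y₀ : Fin 3 × Fin n → ℝ}
    (hy₀ : pot y₀ ∈ W) (κ : ℝ) {β : Type} (φ : β → Bool) {Ω : Type} [Fintype Ω]
    (p : Ω → ℝ) (hp0 : ∀ ρ, 0 ≤ p ρ) (hp1 : ∑ ρ, p ρ = 1)
    (t : Ω → RTree (pot : (Fin 3 × Fin n → ℝ) → Wts n) β) {γ T : ℝ} (hγ : 0 < γ) (hn : 1 ≤ n)
    (hno : ∀ w ∈ W, (∀ s, 0 < wt w s) →
      (1 + γ) / 2 ≤ prob p (fun ρ => φ ((t ρ).run w) = false) ∧ (∀ ρ, (t ρ).rounds w ≤ 2) ∧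
        ∑ ρ, p ρ * (t ρ).tests w ≤ T)
    (hyes : ∀ w ∈ W, ∀ τ, SignType.sign (wt w τ) = SignType.sign κ →
      (∀ s, s ≠ τ → 0 < wt w s) → (1 + γ) / 2 ≤ prob p (fun ρ => φ ((t ρ).run w) = true)) :
    γ * (n : ℝ) ^ ((8 : ℝ) / 3) ≤ 23 * T := by
  have hn' : (1 : ℝ) ≤ n := by exact_mod_cast hn
  have hn0 : (0 : ℝ) < n := by linarith
  set y : ℝ := (n : ℝ) ^ ((1 : ℝ) / 3) with hy
  have hy1 : 1 ≤ y := Real.one_le_rpow hn' (by positivity)
  have hy0 : 0 < y := by linarith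
  have hy3 : y ^ 3 = n := by
    rw [hy, ← Real.rpow_natCast, ← Real.rpow_mul hn0.le]
    norm_num
  have hmain : (n : ℝ) ^ ((8 : ℝ) / 3) = n ^ 2 * y ^ 2 := by
    rw [hy, ← Real.rpow_natCast (_ ^ _) 2, ← Real.rpow_mul hn0.le,
      ← Real.rpow_natCast (n : ℝ) 2, ← Real.rpow_add hn0]
    congr 1
    norm_num
  rw [hmain]
  set x : ℕ := ⌈y⌉₊ with hx
  have hx1 : y ≤ x := Nat.le_ceil _
  have hx2 : (x : ℝ) < y + 1 := Nat.ceil_lt_add_one hy0.le
  have hx3 : (x : ℝ) ≤ 2 * y := by linarith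
  have hx4 : 1 ≤ x := by
    have : (1 : ℝ) ≤ x := by linarith
    exact_mod_cast this
  have hx0 : (0 : ℝ) < x := by linarith
  have h := tri_tradeoff hW hy₀ κ φ p hp0 hp1 t hx4 hno hyes
  have hT : 0 < T := by
    by_contra hT
    push Not at hT
    have h1 : 0 < γ * (n : ℝ) ^ 3 := by positivity
    have h2 : (1 + 2 * (n : ℝ) / x ^ 2 + 16 / x + 2 * x) * T ≤ 0 :=
      mul_nonpos_of_nonneg_of_nonpos (by positivity) hT
    linarith
  have h1 : 1 + 2 * (n : ℝ) / x ^ 2 + 16 / x + 2 * x ≤ 23 * y := by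
    have h2 : 2 * (n : ℝ) / x ^ 2 ≤ 2 * y := by
      rw [div_le_iff₀ (by positivity), ← hy3]
      have h3 : y ^ 2 ≤ (x : ℝ) ^ 2 := pow_le_pow_left₀ hy0.le hx1 2
      have h4 := mul_le_mul_of_nonneg_left h3 hy0.le
      nlinarith
    have h3 : (16 : ℝ) / x ≤ 16 * y := by
      rw [div_le_iff₀ hx0]
      have h4 : (1 : ℝ) ≤ y * x := one_le_mul_of_one_le_of_one_le hy1 (hy1.trans hx1)
      linarith
    linarith
  have h5 : (γ * (n ^ 2 * y ^ 2)) * y ≤ (23 * T) * y := by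
    calc (γ * ((n : ℝ) ^ 2 * y ^ 2)) * y = γ * ((n : ℝ) ^ 2 * y ^ 3) := by ring
      _ = γ * (n : ℝ) ^ 3 := by rw [hy3]; ring
      _ ≤ (1 + 2 * (n : ℝ) / x ^ 2 + 16 / x + 2 * x) * T := h
      _ ≤ (23 * y) * T := mul_le_mul_of_nonneg_right h1 hT.le
      _ = (23 * T) * y := by ring
  exact le_of_mul_le_mul_right h5 hy0

/-- the set of the lengths near `1`, `1`, `2` -/
def nearW (δ : ℝ) : Set (Wts n) :=
  {w | Near δ (fun i j => w (0, i, j)) (fun j k => w (1, j, k)) (fun i k => -w (2, i, k))}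

theorem nearW_open (δ : ℝ) : IsOpen (nearW δ : Set (Wts n)) := by
  have h : (nearW δ : Set (Wts n)) = ⋂ i : Fin n, ⋂ j : Fin n, {w : Wts n |
      |w (0, i, j) - 1| < δ ∧ |w (1, i, j) - 1| < δ ∧ |-w (2, i, j) - 2| < δ} := by
    ext w
    simp [nearW, Near]
  rw [h]
  refine isOpen_iInter_of_finite fun i => isOpen_iInter_of_finite fun j => ?_
  have h1 : IsOpen {w : Wts n | |w (0, i, j) - 1| < δ} :=
    isOpen_lt (((continuous_apply _).sub continuous_const).abs) continuous_const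
  have h2 : IsOpen {w : Wts n | |w (1, i, j) - 1| < δ} :=
    isOpen_lt (((continuous_apply _).sub continuous_const).abs) continuous_const
  have h3 : IsOpen {w : Wts n | |-w (2, i, j) - 2| < δ} :=
    isOpen_lt ((((continuous_apply _).neg).sub continuous_const).abs) continuous_const
  exact h1.inter (h2.inter h3)

/-- the potential `2`, `1`, `0` -/
def xs : Fin 3 × Fin n → ℝ := fun v => if v.1 = 0 then 2 else if v.1 = 1 then 1 else 0

theorem pot_xs : pot xs = (lengths (fun _ _ => 1) (fun _ _ => 1) (fun _ _ => 2) : Wts n) := by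
  funext e
  obtain ⟨c, i, j⟩ := e
  unfold xs pot lengths
  fin_cases c <;> simp <;> norm_num

theorem pot_xs_mem {δ : ℝ} (hδ : 0 < δ) : (pot xs : Wts n) ∈ nearW δ := by
  rw [pot_xs]
  intro i j
  simp [lengths, hδ]

/-- shortest paths -/
theorem apsp (hn : 1 ≤ n) {δ : ℝ} (hδ : 0 < δ) {Ω : Type} [Fintype Ω] (p : Ω → ℝ)
    (hp0 : ∀ ρ, 0 ≤ p ρ) (hp1 : ∑ ρ, p ρ = 1) {β : Type} (φ : β → Bool)
    (t : Ω → RTree (pot : (Fin 3 × Fin n → ℝ) → Wts n) β) {γ T : ℝ} (hγ : 0 < γ)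
    (hno : ∀ A B C : Fin n → Fin n → ℝ, Near δ A B C → (∀ i j k, C i k < A i j + B j k) →
      (1 + γ) / 2 ≤ prob p (fun ρ => φ ((t ρ).run (lengths A B C)) = false) ∧
        (∀ ρ, (t ρ).rounds (lengths A B C) ≤ 2) ∧
        ∑ ρ, p ρ * (t ρ).tests (lengths A B C) ≤ T)
    (hyes : ∀ A B C : Fin n → Fin n → ℝ, Near δ A B C → ∀ i j k, A i j + B j k < C i k →
      (∀ i' j' k', (i', j', k') ≠ (i, j, k) → C i' k' < A i' j' + B j' k') →
      (1 + γ) / 2 ≤ prob p (fun ρ => φ ((t ρ).run (lengths A B C)) = true)) :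
    γ * (n : ℝ) ^ ((8 : ℝ) / 3) ≤ 23 * T := by
  have hwt : ∀ (w : Wts n) (i j k : Fin n),
      wt w (i, j, k) = w (0, i, j) + w (1, j, k) - -w (2, i, k) := by
    intro w i j k
    unfold wt
    ring
  refine tri_headline (nearW_open δ) (pot_xs_mem hδ) (-1) φ p hp0 hp1 t hγ hn ?_ ?_
  · intro w hw h1
    have h2 := hno _ _ _ hw (fun i j k => by
      have h3 := h1 (i, j, k)
      rw [hwt] at h3
      linarith)
    rw [← hc] at h2
    exact h2
  · intro w hw τ h1 h2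
    obtain ⟨i, j, k⟩ := τ
    have h4 : wt w (i, j, k) < 0 := by
      rw [show SignType.sign (-1 : ℝ) = -1 from sign_neg (by norm_num)] at h1
      exact sign_eq_neg_one_iff.1 h1
    have h5 := hyes _ _ _ hw i j k (by rw [hwt] at h4; linarith) (fun i' j' k' hne => by
      have h3 := h2 (i', j', k') hne
      rw [hwt] at h3
      linarith)
    rw [← hc] at h5
    exact h5

/-- triangles of weight zero -/
theorem exact_tri (hn : 1 ≤ n) {δ : ℝ} (hδ : 0 < δ) {Ω : Type} [Fintype Ω] (p : Ω → ℝ)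
    (hp0 : ∀ ρ, 0 ≤ p ρ) (hp1 : ∑ ρ, p ρ = 1) {β : Type} (φ : β → Bool)
    (t : Ω → RTree (pot : (Fin 3 × Fin n → ℝ) → Wts n) β) {γ T : ℝ} (hγ : 0 < γ)
    (hno : ∀ w : Wts n, (∀ e, |w e| < δ) → (∀ s, 0 < wt w s) →
      (1 + γ) / 2 ≤ prob p (fun ρ => φ ((t ρ).run w) = false) ∧ (∀ ρ, (t ρ).rounds w ≤ 2) ∧
        ∑ ρ, p ρ * (t ρ).tests w ≤ T)
    (hyes : ∀ w : Wts n, (∀ e, |w e| < δ) → ∀ τ, wt w τ = 0 → (∀ s, s ≠ τ → 0 < wt w s) →
      (1 + γ) / 2 ≤ prob p (fun ρ => φ ((t ρ).run w) = true)) :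
    γ * (n : ℝ) ^ ((8 : ℝ) / 3) ≤ 23 * T := by
  have hW : IsOpen {w : Wts n | ∀ e, |w e| < δ} := by
    have h : {w : Wts n | ∀ e, |w e| < δ} = ⋂ e, {w : Wts n | |w e| < δ} := by
      ext w
      simp
    rw [h]
    exact isOpen_iInter_of_finite fun e => isOpen_lt (continuous_apply e).abs continuous_const
  have h0 : (pot (0 : Fin 3 × Fin n → ℝ) : Wts n) ∈ {w : Wts n | ∀ e, |w e| < δ} := by
    intro e
    have : (pot (0 : Fin 3 × Fin n → ℝ) : Wts n) e = 0 := by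
      unfold pot
      split_ifs <;> simp
    rw [this, abs_zero]
    exact hδ
  refine tri_headline hW h0 0 φ p hp0 hp1 t hγ hn hno ?_
  intro w hw τ h1 h2
  rw [sign_zero, sign_eq_zero_iff] at h1
  exact hyes w hw τ h1 h2

end Pool.Agent.H692.RT
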